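import Pool.Agent.Lib.MP_d41719_co.Defs

/-!
Words with given numbers of letters.
-/

namespace Pool.Agent.Lib.MP_d41719_co

open Finset Nat

/-- PROOF: If there is no such `κ` the bound is trivial. Let `κ₀` be one. Then `l ∘ κ = u` iff `κ = ρ * κ₀` with
`l ∘ ρ = l` (`ρ = κ * κ₀⁻¹`), so the number is at most the number of the `ρ` with `l ∘ ρ = l`, which is
`∏ a, (#{h | l h = a})!` (`DomMulAct.stabilizer_card` or `Equiv.Perm`-lemmas on `Perm` of the fibres:
the map from these `ρ` to `∏ a, Perm {h // l h = a}` is injective; `Fintype.card_perm`, `Fintype.card_pi`). -/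
theorem card_word_le {H L : Type} [Fintype H] [DecidableEq H] [Fintype L] [DecidableEq L] (l u : H → L) :
    (univ.filter fun κ : Equiv.Perm H => l ∘ κ = u).card ≤ ∏ a, (univ.filter fun h => l h = a).card ! := by
  classical
  have h1 : ∏ a, (univ.filter fun h => l h = a).card ! =
      (univ.filter fun ρ : Equiv.Perm H => l ∘ ρ = l).card := by
    have h2 := DomMulAct.stabilizer_card (f := l)
    rw [Fintype.card_subtype] at h2
    rw [h2]
    refine Finset.prod_congr rfl fun a _ => ?_
    rw [Fintype.card_subtype]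
  rw [h1]
  rcases (univ.filter fun κ : Equiv.Perm H => l ∘ κ = u).eq_empty_or_nonempty with h | ⟨κ₀, h⟩
  · rw [h, Finset.card_empty]
    exact Nat.zero_le _
  · rw [Finset.mem_filter] at h
    refine Finset.card_le_card_of_injOn (fun κ => κ * κ₀⁻¹) ?_ ?_
    · intro κ hκ
      rw [Finset.mem_coe, Finset.mem_filter] at hκ
      rw [Finset.mem_coe, Finset.mem_filter]
      refine ⟨Finset.mem_univ _, ?_⟩
      funext x
      have h3 := congrFun hκ.2 (κ₀⁻¹ x)
      have h4 := congrFun h.2 (κ₀⁻¹ x)
      simp only [Function.comp_apply] at h3 h4 ⊢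
      have h5 : κ₀ (κ₀⁻¹ x) = x := κ₀.apply_symm_apply x
      rw [h5] at h4
      rw [Equiv.Perm.mul_apply, h3, h4]
    · intro κ _ κ' _ hh
      exact mul_right_cancel hh

end Pool.Agent.Lib.MP_d41719_co
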