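import Pool.Agent.Lib.MP_d41719_co.A1

/-!
A bound for sums over permutations (permanents of matrices with few different rows and columns).
-/

namespace Pool.Agent.Lib.MP_d41719_co

open Finset Nat

private theorem A2_shift {H L : Type} [Fintype H] [DecidableEq H] (M : L → L → ℝ) (l l' : H → L)
    (κ : Equiv.Perm H) :
    ∑ π : Equiv.Perm H, ∏ h, M (l (κ h)) (l' (π h)) = ∑ π : Equiv.Perm H, ∏ h, M (l h) (l' (π h)) := by
  rw [← Equiv.sum_comp (Equiv.mulRight κ) (fun π : Equiv.Perm H => ∏ h, M (l (κ h)) (l' (π h)))]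
  refine Finset.sum_congr rfl fun π _ => ?_
  exact Equiv.prod_comp κ (fun h => M (l h) (l' (π h)))

private theorem A2_group {H L : Type} [Fintype H] [DecidableEq H] [Fintype L] [DecidableEq L] (l : H → L)
    (g : (H → L) → ℝ) (hg : ∀ u, 0 ≤ g u) :
    ∑ κ : Equiv.Perm H, g (l ∘ κ) ≤ (∏ a, ((univ.filter fun h => l h = a).card ! : ℝ)) * ∑ u, g u := by
  rw [← Finset.sum_fiberwise (s := (univ : Finset (Equiv.Perm H))) (g := fun κ : Equiv.Perm H => l ∘ (κ : H → H))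
    (f := fun κ : Equiv.Perm H => g (l ∘ (κ : H → H))), Finset.mul_sum]
  refine Finset.sum_le_sum fun u _ => ?_
  have h1 : ∑ κ ∈ (univ : Finset (Equiv.Perm H)).filter (fun κ : Equiv.Perm H => l ∘ (κ : H → H) = u), g (l ∘ κ) =
      ((univ.filter fun κ : Equiv.Perm H => l ∘ κ = u).card : ℝ) * g u := by
    rw [← nsmul_eq_mul]
    refine Finset.sum_eq_card_nsmul fun κ hκ => ?_
    rw [(Finset.mem_filter.1 hκ).2]
  rw [h1]
  refine mul_le_mul_of_nonneg_right ?_ (hg u)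
  have h2 := card_word_le l u
  exact_mod_cast h2

private theorem A2_expand {H L : Type} [Fintype H] [DecidableEq H] [Fintype L] (ph : L → L → ℝ) :
    ∑ u : H → L, ∑ w : H → L, ∏ h, ph (u h) (w h) = (∑ a, ∑ b, ph a b) ^ Fintype.card H := by
  classical
  have h1 : ∏ _h : H, ∑ q : L × L, ph q.1 q.2 = ∑ p : H → L × L, ∏ h, ph (p h).1 (p h).2 := by
    rw [Finset.prod_univ_sum, Fintype.piFinset_univ]
  rw [Finset.prod_const, Finset.card_univ, Fintype.sum_prod_type] at h1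
  rw [h1, ← Fintype.sum_prod_type']
  exact (Equiv.sum_comp (Equiv.arrowProdEquivProdArrow H (fun _ => L) (fun _ => L))
    (fun p : (H → L) × (H → L) => ∏ h, ph (p.1 h) (p.2 h))).symm

/-- PROOF: Let `m = |H|`. For every `κ : Perm H` the sum `∑ π, ∏ h, M (l h) (l' (π h))` is
`∑ π, ∏ h, M (l (κ h)) (l' (π (κ h)))` (`Equiv.prod_comp`) `= ∑ π, ∏ h, M (l (κ h)) (l' (π h))` (reindexing `π * κ`). Sum
over `κ`: `m ! * ∑ π, ... = ∑ κ, ∑ π, ∏ h, M (l (κ h)) (l' (π h))`. Also `∏ h, x (l h) = ∏ h, x (l (κ h))` and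
`∏ h, y (l' h) = ∏ h, y (l' (π h))`, so the left side is `∑ κ, ∑ π, F (l ∘ κ) (l' ∘ π)` with
`F u w = ∏ h, x (u h) * y (w h) * M (u h) (w h) ≥ 0`. Group by `u = l ∘ κ`, `w = l' ∘ π` (`card_word_le`): it is at most
`(∏ a, ..!) * (∏ a, ..!) * ∑ u : H → L, ∑ w : H → L, F u w`, and the last sum is
`∏ h, (∑ a, ∑ b, x a * y b * M a b)` (`Finset.prod_univ_sum` twice, or over `H → L × L`). -/
theorem perm_sum_le {H L : Type} [Fintype H] [DecidableEq H] [Fintype L] [DecidableEq L] (M : L → L → ℝ)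
    (hM : ∀ a b, 0 ≤ M a b) (x y : L → ℝ) (hx : ∀ a, 0 ≤ x a) (hy : ∀ a, 0 ≤ y a) (l l' : H → L) :
    (∏ h, x (l h)) * (∏ h, y (l' h)) * ((Fintype.card H) ! : ℝ) * ∑ π : Equiv.Perm H, ∏ h, M (l h) (l' (π h)) ≤
      (∏ a, ((univ.filter fun h => l h = a).card ! : ℝ)) * (∏ a, ((univ.filter fun h => l' h = a).card ! : ℝ)) *
        (∑ a, ∑ b, x a * y b * M a b) ^ Fintype.card H := by
  have hF : ∀ u w : H → L, 0 ≤ ∏ h, (x (u h) * y (w h) * M (u h) (w h)) := fun u w =>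
    Finset.prod_nonneg fun h _ => mul_nonneg (mul_nonneg (hx _) (hy _)) (hM _ _)
  have h0 : ((Fintype.card H) ! : ℝ) * ∑ π : Equiv.Perm H, ∏ h, M (l h) (l' (π h)) =
      ∑ κ : Equiv.Perm H, ∑ π : Equiv.Perm H, ∏ h, M (l (κ h)) (l' (π h)) := by
    rw [Finset.sum_congr rfl fun κ _ => A2_shift M l l' κ, Finset.sum_const, Finset.card_univ,
      Fintype.card_perm, nsmul_eq_mul]
  have h1 : (∏ h, x (l h)) * (∏ h, y (l' h)) * ((Fintype.card H) ! : ℝ) *
      ∑ π : Equiv.Perm H, ∏ h, M (l h) (l' (π h)) =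
      ∑ κ : Equiv.Perm H, ∑ π : Equiv.Perm H,
        ∏ h, (x ((l ∘ κ) h) * y ((l' ∘ π) h) * M ((l ∘ κ) h) ((l' ∘ π) h)) := by
    rw [mul_assoc, h0, Finset.mul_sum]
    refine Finset.sum_congr rfl fun κ _ => ?_
    rw [Finset.mul_sum]
    refine Finset.sum_congr rfl fun π _ => ?_
    rw [Finset.prod_mul_distrib, Finset.prod_mul_distrib]
    rw [← Equiv.prod_comp κ (fun h => x (l h)), ← Equiv.prod_comp π (fun h => y (l' h))]
    rfl
  rw [h1]
  calc ∑ κ : Equiv.Perm H, ∑ π : Equiv.Perm H,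
        ∏ h, (x ((l ∘ κ) h) * y ((l' ∘ π) h) * M ((l ∘ κ) h) ((l' ∘ π) h))
      ≤ (∏ a, ((univ.filter fun h => l h = a).card ! : ℝ)) *
          ∑ u : H → L, ∑ π : Equiv.Perm H, ∏ h, (x (u h) * y ((l' ∘ π) h) * M (u h) ((l' ∘ π) h)) :=
        A2_group l (fun u => ∑ π : Equiv.Perm H, ∏ h, (x (u h) * y ((l' ∘ π) h) * M (u h) ((l' ∘ π) h)))
          (fun u => Finset.sum_nonneg fun π _ => hF u (l' ∘ π))
    _ ≤ (∏ a, ((univ.filter fun h => l h = a).card ! : ℝ)) *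
          ∑ u : H → L, ((∏ a, ((univ.filter fun h => l' h = a).card ! : ℝ)) *
            ∑ w : H → L, ∏ h, (x (u h) * y (w h) * M (u h) (w h))) := by
        refine mul_le_mul_of_nonneg_left (Finset.sum_le_sum fun u _ => ?_)
          (Finset.prod_nonneg fun a _ => by positivity)
        exact A2_group l' (fun w => ∏ h, (x (u h) * y (w h) * M (u h) (w h))) (fun w => hF u w)
    _ = _ := by
        rw [← Finset.mul_sum, A2_expand (H := H) (fun a b => x a * y b * M a b), mul_assoc]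

end Pool.Agent.Lib.MP_d41719_co
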