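import Pool.Agent.Lib.MP_d41719_co.BDefs

/-!
The table of the compatible labels.
-/

namespace Pool.Agent.Lib.MP_d41719_co

/-- The compatible pairs of labels. -/
private theorem B1_dec (p q : Lb) : Cmp p q ↔
    ((p.2 = 0 ∧ q.2 = 0 ∧ q.1 = cp p.1) ∨ (p.2 ≠ 0 ∧ q.2 ≠ 0 ∧ pr p.1 ≠ pr q.1 ∧ base p.1 p.2 = base q.1 q.2)) := by
  revert p q
  decide

private theorem B1_in (a : ℝ) (u w : Fin 6 → ℝ) (T U : Fin 6) :
    ∑ i : Fin 3, ∑ j : Fin 3, (if Cmp (T, i) (U, j) then xx a u (T, i) * xx a w (U, j) else 0) =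
      (if U = cp T then a ^ 2 * (u T ^ 2 * w (cp T) ^ 2) else 0) +
        (if pr T = pr U then 0 else u T ^ 3 * w U ^ 3) := by
  simp_rw [B1_dec]
  fin_cases T <;> fin_cases U <;> simp [Fin.sum_univ_three, xx, cp, pr, base] <;> ring

/-- The compatible pairs of labels: `((T, 0), (cp T, 0))`, and for `T`, `U` in different pairs of complementary types
exactly one pair `((T, i), (U, j))`, with `i, j ≠ 0`. PROOF: expand both sides (`Fintype.sum_prod_type`,
`Fin.sum_univ_succ`), decide `Cmp` for the `324` pairs of labels and `ring`; or sum over the `(T, U)` and decide for every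
`(T, U)` which `(i, j)` are compatible. (Checked by computer.) -/
theorem table_eq (a : ℝ) (u w : Fin 6 → ℝ) :
    ∑ p : Lb, ∑ q : Lb, (if Cmp p q then xx a u p * xx a w q else 0) = a ^ 2 * BB u w + DD u w := by
  rw [Fintype.sum_prod_type]
  simp_rw [Fintype.sum_prod_type (f := fun q : Lb => _)]
  have h : ∀ T : Fin 6, (∑ i : Fin 3, ∑ U : Fin 6, ∑ j : Fin 3,
      (if Cmp (T, i) (U, j) then xx a u (T, i) * xx a w (U, j) else 0)) =
      a ^ 2 * (u T ^ 2 * w (cp T) ^ 2) + ∑ U, (if pr T = pr U then 0 else u T ^ 3 * w U ^ 3) := by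
    intro T
    rw [Finset.sum_comm]
    simp_rw [B1_in]
    rw [Finset.sum_add_distrib]
    simp
  simp_rw [h]
  rw [Finset.sum_add_distrib, BB, DD, Finset.mul_sum]

end Pool.Agent.Lib.MP_d41719_co
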