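import Pool.Agent.Lib.MP_d41719_co.B1

/-!
The bound of the sum of the weights by the table.
-/

namespace Pool.Agent.Lib.MP_d41719_co

/-- `989 ^ 1000 * 60000 ≤ 1000 ^ 1000`. -/
theorem lam_le : lam ≤ 1 / 60000 := by
  unfold lam
  rw [div_pow, div_le_div_iff₀ (by positivity) (by norm_num)]
  have h : (989 : ℕ) ^ 1000 * 60000 ≤ 1 * 1000 ^ 1000 := by decide +kernel
  exact_mod_cast h

private theorem B1b_xx (a : ℝ) (ha : 0 ≤ a) (ha2 : a ^ 2 = 4 / 5) (u : Fin 6 → ℝ) (hu : ∀ T, 0 ≤ u T)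
    (hu1 : ∑ T, u T ^ 4 = 1) (p : Lb) : 0 ≤ xx a u p ∧ xx a u p ≤ 1 := by
  have h1 : u p.1 ^ 4 ≤ 1 := by
    rw [← hu1]
    exact Finset.single_le_sum (f := fun T => u T ^ 4) (fun T _ => pow_nonneg (hu T) 4) (Finset.mem_univ p.1)
  have h2 : u p.1 ≤ 1 := by
    by_contra hc
    have h3 : 1 < u p.1 ^ 4 := one_lt_pow₀ (not_le.1 hc) (by norm_num)
    linarith
  have h3 : a ≤ 1 := by nlinarith
  unfold xx
  split_ifs
  · exact ⟨mul_nonneg ha (pow_nonneg (hu _) 2), mul_le_one₀ h3 (pow_nonneg (hu _) 2) (pow_le_one₀ (hu _) h2)⟩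
  · exact ⟨pow_nonneg (hu _) 3, pow_le_one₀ (hu _) h2⟩

/-- PROOF: `xx a u p * xx a w q * wt p q` is the term of `table_eq` if `p`, `q` are compatible, and at most `lam`
otherwise (`0 ≤ xx ≤ 1` as `u T ^ 4 ≤ 1` and `a ≤ 1`); there are `324` pairs. -/
theorem zsum_le_table (a : ℝ) (ha : 0 ≤ a) (ha2 : a ^ 2 = 4 / 5) (u w : Fin 6 → ℝ) (hu : ∀ T, 0 ≤ u T)
    (hw : ∀ T, 0 ≤ w T) (hu1 : ∑ T, u T ^ 4 = 1) (hw1 : ∑ T, w T ^ 4 = 1) :
    ∑ p : Lb, ∑ q : Lb, xx a u p * xx a w q * wt p q ≤ 4 / 5 * BB u w + DD u w + 324 * lam := by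
  have hl : 0 ≤ lam := by
    unfold lam
    positivity
  have h1 : ∀ p q : Lb, xx a u p * xx a w q * wt p q ≤ (if Cmp p q then xx a u p * xx a w q else 0) + lam := by
    intro p q
    obtain ⟨h2, h3⟩ := B1b_xx a ha ha2 u hu hu1 p
    obtain ⟨h4, h5⟩ := B1b_xx a ha ha2 w hw hw1 q
    unfold wt
    split_ifs
    · rw [mul_one]
      linarith
    · rw [zero_add]
      have h6 : xx a u p * xx a w q ≤ 1 := mul_le_one₀ h3 h4 h5
      nlinarith
  calc ∑ p : Lb, ∑ q : Lb, xx a u p * xx a w q * wt p q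
      ≤ ∑ p : Lb, ∑ q : Lb, ((if Cmp p q then xx a u p * xx a w q else 0) + lam) :=
        Finset.sum_le_sum fun p _ => Finset.sum_le_sum fun q _ => h1 p q
    _ = (∑ p : Lb, ∑ q : Lb, (if Cmp p q then xx a u p * xx a w q else 0)) + 324 * lam := by
        simp only [Finset.sum_add_distrib, Finset.sum_const, Finset.card_univ, Fintype.card_prod, Fintype.card_fin,
          nsmul_eq_mul]
        norm_num
        ring
    _ = 4 / 5 * BB u w + DD u w + 324 * lam := by rw [table_eq, ha2]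

end Pool.Agent.Lib.MP_d41719_co
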