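import Pool.Agent.Lib.MP_d41719_co.BDefs

/-!
An inequality.
-/

namespace Pool.Agent.Lib.MP_d41719_co

/-- PROOF: the minimum of `46/25 s^4 - s^3` for `s ≥ 0` is at `s = 75/184`, `- 27 / (256 * (46/25)^3) > - 339/20000`.
(`nlinarith`, or `46/25 s^4 - s^3 + c = 46/25 (s - r)^2 (s^2 + α s + β)` with `r = 75/184` and the exact `c`.) -/
theorem cube_le (s : ℝ) (hs : 0 ≤ s) : s ^ 3 ≤ 339 / 20000 + 46 / 25 * s ^ 4 := by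
  have h1 : 0 ≤ (s - 75 / 184) ^ 2 * (s ^ 2 + 25 / 92 * s + 1875 / 33856) := by positivity
  have h2 : 46 / 25 * ((s - 75 / 184) ^ 2 * (s ^ 2 + 25 / 92 * s + 1875 / 33856)) =
      46 / 25 * s ^ 4 - s ^ 3 + (75 / 184) ^ 3 / 4 := by ring
  have h3 : ((75 : ℝ) / 184) ^ 3 / 4 ≤ 339 / 20000 := by norm_num
  linarith

/-- PROOF: `cube_le` for the `24` products `u T * w U`, `pr T ≠ pr U`: `DD ≤ 24 * 339/20000 + 46/25 * (1 - S)` with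
`S = ∑ j : Fin 3, P j * Q j`, `P j = ∑ T with pr T = j, u T ^ 4`, `Q j` similarly
(`∑ T, ∑ U, u T ^ 4 * w U ^ 4 = 1`). By Cauchy `u_0^2 w_1^2 + u_1^2 w_0^2 ≤ √(P_0 Q_0)` etc., so
`BB ≤ ∑ j, √(P j * Q j)` and `BB ^ 2 ≤ 3 * S`. (Without roots: `BB = ∑ j, b j` with `b j ^ 2 ≤ P j * Q j` and
`(∑ b j) ^ 2 ≤ 3 ∑ b j ^ 2`.) -/
theorem dd_le (u w : Fin 6 → ℝ) (hu : ∀ T, 0 ≤ u T) (hw : ∀ T, 0 ≤ w T) (hu1 : ∑ T, u T ^ 4 = 1)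
    (hw1 : ∑ T, w T ^ 4 = 1) : DD u w ≤ 22468 / 10000 - 46 / 75 * BB u w ^ 2 := by
  have h1 : DD u w ≤ ∑ T, ∑ U, if pr T = pr U then 0 else (339 / 20000 + 46 / 25 * (u T ^ 4 * w U ^ 4)) := by
    unfold DD
    refine Finset.sum_le_sum fun T _ => Finset.sum_le_sum fun U _ => ?_
    split_ifs with h
    · exact le_refl 0
    · have := cube_le (u T * w U) (mul_nonneg (hu T) (hw U))
      rw [mul_pow, mul_pow] at this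
      exact this
  have h2 : (∑ T, ∑ U, if pr T = pr U then 0 else (339 / 20000 + 46 / 25 * (u T ^ 4 * w U ^ 4))) =
      24 * (339 / 20000) + 46 / 25 * ((∑ T, u T ^ 4) * (∑ T, w T ^ 4) - ((u 0 ^ 4 + u 1 ^ 4) * (w 0 ^ 4 + w 1 ^ 4) +
        (u 2 ^ 4 + u 3 ^ 4) * (w 2 ^ 4 + w 3 ^ 4) + (u 4 ^ 4 + u 5 ^ 4) * (w 4 ^ 4 + w 5 ^ 4))) := by
    have e0 : pr 0 = 0 := rfl
    have e1 : pr 1 = 0 := rfl
    have e2 : pr 2 = 1 := rfl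
    have e3 : pr 3 = 1 := rfl
    have e4 : pr 4 = 2 := rfl
    have e5 : pr 5 = 2 := rfl
    have d01 : ¬ ((0 : Fin 3) = 1) := by decide
    have d02 : ¬ ((0 : Fin 3) = 2) := by decide
    have d12 : ¬ ((1 : Fin 3) = 2) := by decide
    have d10 : ¬ ((1 : Fin 3) = 0) := by decide
    have d20 : ¬ ((2 : Fin 3) = 0) := by decide
    have d21 : ¬ ((2 : Fin 3) = 1) := by decide
    simp only [Fin.sum_univ_six, e0, e1, e2, e3, e4, e5, if_true, d01, d02, d12, d10, d20, d21, if_false]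
    ring
  have h3 : BB u w = (u 0 ^ 2 * w 1 ^ 2 + u 1 ^ 2 * w 0 ^ 2) + (u 2 ^ 2 * w 3 ^ 2 + u 3 ^ 2 * w 2 ^ 2) +
      (u 4 ^ 2 * w 5 ^ 2 + u 5 ^ 2 * w 4 ^ 2) := by
    have e0 : cp 0 = 1 := rfl
    have e1 : cp 1 = 0 := rfl
    have e2 : cp 2 = 3 := rfl
    have e3 : cp 3 = 2 := rfl
    have e4 : cp 4 = 5 := rfl
    have e5 : cp 5 = 4 := rfl
    unfold BB
    simp only [Fin.sum_univ_six, e0, e1, e2, e3, e4, e5]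
    ring
  have cs : ∀ a b c d : ℝ, (a ^ 2 * d ^ 2 + b ^ 2 * c ^ 2) ^ 2 ≤ (a ^ 4 + b ^ 4) * (c ^ 4 + d ^ 4) := by
    intro a b c d
    have : (a ^ 4 + b ^ 4) * (c ^ 4 + d ^ 4) - (a ^ 2 * d ^ 2 + b ^ 2 * c ^ 2) ^ 2 =
        (a ^ 2 * c ^ 2 - b ^ 2 * d ^ 2) ^ 2 := by ring
    have h0 := sq_nonneg (a ^ 2 * c ^ 2 - b ^ 2 * d ^ 2)
    linarith
  have three : ∀ x y z : ℝ, (x + y + z) ^ 2 ≤ 3 * (x ^ 2 + y ^ 2 + z ^ 2) := by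
    intro x y z
    nlinarith [sq_nonneg (x - y), sq_nonneg (y - z), sq_nonneg (x - z)]
  have h4 := three (u 0 ^ 2 * w 1 ^ 2 + u 1 ^ 2 * w 0 ^ 2) (u 2 ^ 2 * w 3 ^ 2 + u 3 ^ 2 * w 2 ^ 2)
    (u 4 ^ 2 * w 5 ^ 2 + u 5 ^ 2 * w 4 ^ 2)
  rw [← h3] at h4
  have c0 := cs (u 0) (u 1) (w 0) (w 1)
  have c1 := cs (u 2) (u 3) (w 2) (w 3)
  have c2 := cs (u 4) (u 5) (w 4) (w 5)
  rw [h2, hu1, hw1] at h1
  linarith

end Pool.Agent.Lib.MP_d41719_co
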