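import Pool.Agent.Lib.MP_d41719_co.B1b
import Pool.Agent.Lib.MP_d41719_co.B2

/-!
The bound for the sum of the weights.
-/

namespace Pool.Agent.Lib.MP_d41719_co

theorem zsum_le (a : ℝ) (ha : 0 ≤ a) (ha2 : a ^ 2 = 4 / 5) (u w : Fin 6 → ℝ) (hu : ∀ T, 0 ≤ u T)
    (hw : ∀ T, 0 ≤ w T) (hu1 : ∑ T, u T ^ 4 = 1) (hw1 : ∑ T, w T ^ 4 = 1) :
    ∑ p : Lb, ∑ q : Lb, xx a u p * xx a w q * wt p q ≤ 12571 / 5000 := by
  have h1 := zsum_le_table a ha ha2 u w hu hw hu1 hw1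
  have h2 := dd_le u w hu hw hu1 hw1
  have h3 := lam_le
  nlinarith [sq_nonneg (BB u w - 15 / 23)]

end Pool.Agent.Lib.MP_d41719_co
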