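import Pool.Agent.Lib.MP_d41719_co.Defs

/-!
The weights of the labels.
-/

namespace Pool.Agent.Lib.MP_d41719_co

/-- The weight of a label. -/
noncomputable def xx (a : ℝ) (u : Fin 6 → ℝ) (p : Lb) : ℝ := if p.2 = 0 then a * u p.1 ^ 2 else u p.1 ^ 3

/-- The complementary type. -/
def cp : Fin 6 → Fin 6 := ![1, 0, 3, 2, 5, 4]

/-- The index of the pair of complementary types. -/
def pr : Fin 6 → Fin 3 := ![0, 0, 1, 1, 2, 2]

/-- The sum over the edges of the colour `0`. -/
noncomputable def BB (u w : Fin 6 → ℝ) : ℝ := ∑ T, u T ^ 2 * w (cp T) ^ 2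

/-- The sum over the other edges. -/
noncomputable def DD (u w : Fin 6 → ℝ) : ℝ := ∑ T, ∑ U, if pr T = pr U then 0 else u T ^ 3 * w U ^ 3

end Pool.Agent.Lib.MP_d41719_co
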