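import Mathlib

/-!
Bounds for factorials.
-/

namespace Pool.Agent.Lib.MP_d41719_co

open Nat

private theorem C1_step (p : ℕ) (hp : 1 ≤ p) :
    (p + 1 : ℝ) * (Real.exp 1 * ((p : ℝ) + 1) ^ 2 * ((p : ℝ) / Real.exp 1) ^ p) ≤
      Real.exp 1 * ((p : ℝ) + 1 + 1) ^ 2 * (((p : ℝ) + 1) / Real.exp 1) ^ (p + 1) := by
  have hp0 : (1 : ℝ) ≤ p := by exact_mod_cast hp
  have he : 0 < Real.exp 1 := Real.exp_pos 1
  set s : ℝ := p / (p + 1) with hs
  have hs0 : 0 < s := by positivity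
  have h1 : Real.exp 1 * s ^ (p + 1) ≤ 1 := by
    have h2 : s ≤ Real.exp (-(1 / (p + 1 : ℝ))) := by
      have h3 := Real.add_one_le_exp (-(1 / (p + 1 : ℝ)))
      have h4 : s = -(1 / (p + 1 : ℝ)) + 1 := by
        rw [hs]
        field_simp
        ring
      rw [h4]
      exact h3
    have h5 : s ^ (p + 1) ≤ Real.exp (-1) := by
      refine (pow_le_pow_left₀ hs0.le h2 (p + 1)).trans (le_of_eq ?_)
      rw [← Real.exp_nat_mul]
      congr 1
      push_cast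
      field_simp
    calc Real.exp 1 * s ^ (p + 1) ≤ Real.exp 1 * Real.exp (-1) :=
          mul_le_mul_of_nonneg_left h5 he.le
      _ = 1 := by rw [← Real.exp_add]; simp
  have hP : ((p : ℝ) / Real.exp 1) ^ p = (((p : ℝ) + 1) / Real.exp 1) ^ p * s ^ p := by
    rw [← mul_pow]
    congr 1
    rw [hs]
    field_simp
  have hQ : 0 < (((p : ℝ) + 1) / Real.exp 1) ^ p := by positivity
  have h6 : ((p : ℝ) + 1) ^ 2 * (Real.exp 1 * s ^ p) ≤ ((p : ℝ) + 1 + 1) ^ 2 := by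
    have h7 : ((p : ℝ) + 1) ^ 2 * (Real.exp 1 * s ^ p) * s ≤ ((p : ℝ) + 1 + 1) ^ 2 * s := by
      have h8 : ((p : ℝ) + 1) ^ 2 * (Real.exp 1 * s ^ p) * s =
          ((p : ℝ) + 1) ^ 2 * (Real.exp 1 * s ^ (p + 1)) := by ring
      have h9 : ((p : ℝ) + 1) ^ 2 ≤ ((p : ℝ) + 1 + 1) ^ 2 * s := by
        rw [hs, ← mul_div_assoc, le_div_iff₀ (by positivity)]
        nlinarith
      rw [h8]
      refine le_trans ?_ h9
      calc ((p : ℝ) + 1) ^ 2 * (Real.exp 1 * s ^ (p + 1)) ≤ ((p : ℝ) + 1) ^ 2 * 1 :=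
            mul_le_mul_of_nonneg_left h1 (by positivity)
        _ = ((p : ℝ) + 1) ^ 2 := mul_one _
    exact le_of_mul_le_mul_right h7 hs0
  calc (p + 1 : ℝ) * (Real.exp 1 * ((p : ℝ) + 1) ^ 2 * ((p : ℝ) / Real.exp 1) ^ p)
      = ((p : ℝ) + 1) ^ 2 * (Real.exp 1 * s ^ p) * ((p + 1) * (((p : ℝ) + 1) / Real.exp 1) ^ p) := by
        rw [hP]
        ring
    _ ≤ ((p : ℝ) + 1 + 1) ^ 2 * ((p + 1) * (((p : ℝ) + 1) / Real.exp 1) ^ p) :=
        mul_le_mul_of_nonneg_right h6 (by positivity)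
    _ = Real.exp 1 * ((p : ℝ) + 1 + 1) ^ 2 * (((p : ℝ) + 1) / Real.exp 1) ^ (p + 1) := by
        have e1 : Real.exp 1 * (((p : ℝ) + 1) / Real.exp 1) = p + 1 := by field_simp
        calc ((p : ℝ) + 1 + 1) ^ 2 * ((p + 1) * (((p : ℝ) + 1) / Real.exp 1) ^ p)
            = ((p : ℝ) + 1 + 1) ^ 2 * (Real.exp 1 * (((p : ℝ) + 1) / Real.exp 1) *
                (((p : ℝ) + 1) / Real.exp 1) ^ p) := by rw [e1]
          _ = Real.exp 1 * ((p : ℝ) + 1 + 1) ^ 2 * (((p : ℝ) + 1) / Real.exp 1) ^ (p + 1) := by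
            rw [pow_succ]
            ring

private theorem C1_aux (p : ℕ) :
    (p ! : ℝ) ≤ Real.exp 1 * ((p : ℝ) + 1) ^ 2 * ((p : ℝ) / Real.exp 1) ^ p := by
  induction p with
  | zero =>
    have h := Real.add_one_le_exp 1
    simp only [Nat.factorial_zero, Nat.cast_one, Nat.cast_zero, zero_add, one_pow, mul_one, pow_zero]
    linarith
  | succ p ih =>
    rcases Nat.eq_zero_or_pos p with rfl | hp
    · have he : 0 < Real.exp 1 := Real.exp_pos 1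
      have h : Real.exp 1 * ((((0 + 1 : ℕ) : ℝ)) + 1) ^ 2 * (((0 + 1 : ℕ) : ℝ) / Real.exp 1) ^ (0 + 1) = 4 := by
        push_cast
        field_simp
        norm_num
      rw [h]
      norm_num
    · have h1 := C1_step p hp
      rw [Nat.factorial_succ]
      push_cast
      refine le_trans ?_ h1
      exact mul_le_mul_of_nonneg_left ih (by positivity)

/-- PROOF: induction with the stronger constant: `p ! ≤ exp 1 * (p + 1) ^ 2 * (p / exp 1) ^ p` (`0 ^ 0 = 1`). The step: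
`(p + 1) * (p + 1) ^ 2 * (p / e) ^ p ≤ (p + 2) ^ 2 * ((p + 1) / e) ^ (p + 1)`, i.e.
`e * (p + 1) ^ 2 * p ^ p ≤ (p + 2) ^ 2 * (p + 1) ^ p`; by `e ≤ ((p + 1) / p) ^ (p + 1)` (from
`1 - 1 / (p + 1) ≤ exp (- 1 / (p + 1))`) it is enough that `(p + 1) ^ 3 ≤ p * (p + 2) ^ 2` for `p ≥ 1`. `p = 0`
separately. Then `exp 1 ≤ 3`. -/
theorem fact_le (p : ℕ) : (p ! : ℝ) ≤ 3 * ((p : ℝ) + 1) ^ 2 * ((p : ℝ) / Real.exp 1) ^ p := by
  have h3 : Real.exp 1 ≤ 3 := by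
    have := Real.exp_one_lt_d9
    linarith
  refine (C1_aux p).trans ?_
  have h4 : 0 ≤ ((p : ℝ) / Real.exp 1) ^ p := by positivity
  exact mul_le_mul_of_nonneg_right (mul_le_mul_of_nonneg_right h3 (by positivity)) h4

/-- PROOF: `m ^ m / m ! ≤ exp m` (`Real.pow_div_factorial_le_exp`). -/
theorem le_fact (m : ℕ) : ((m : ℝ) / Real.exp 1) ^ m ≤ (m ! : ℝ) := by
  have h := Real.pow_div_factorial_le_exp (m : ℝ) (Nat.cast_nonneg m) m
  have hf : (0 : ℝ) < m ! := by exact_mod_cast Nat.factorial_pos m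
  rw [div_le_iff₀ hf] at h
  rw [div_pow, div_le_iff₀ (by positivity), ← Real.exp_nat_mul, mul_one, mul_comm]
  exact h

end Pool.Agent.Lib.MP_d41719_co
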