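import Pool.Agent.Lib.MP_d41719_co.Defs

/-!
The sum over the words of types.
-/

namespace Pool.Agent.Lib.MP_d41719_co

open Finset

theorem sum_cnt {n : ℕ} (t : Fin n → Fin 6) : ∑ T, cnt t T = n := by
  unfold cnt
  have h := Finset.card_eq_sum_card_fiberwise (f := t) (s := (univ : Finset (Fin n))) (t := univ)
    (fun _ _ => mem_coe.2 (mem_univ _))
  rw [← h, card_univ, Fintype.card_fin]

private theorem C2_prod {n : ℕ} (t : Fin n → Fin 6) (f : Fin 6 → ℝ) :
    ∏ T, f T ^ cnt t T = ∏ i, f (t i) := by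
  rw [← Finset.prod_fiberwise' univ t f]
  refine prod_congr rfl fun T _ => ?_
  rw [prod_const]
  rfl

private theorem C2_le {n : ℕ} (t : Fin n → Fin 6) (T : Fin 6) : cnt t T < n + 1 := by
  unfold cnt
  have h := card_filter_le (univ : Finset (Fin n)) fun u => t u = T
  rw [card_univ, Fintype.card_fin] at h
  omega

/-- PROOF: For `c : Fin 6 → Fin (n + 1)` the sum over the `t` with `cnt t = c` is at most
`∑ t : Fin n → Fin 6, ∏ i, (c (t i) / n) = (∑ T, c T / n) ^ n` (`∏ i, f (t i) = ∏ T, f T ^ cnt t T`,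
`Finset.prod_univ_sum` / `Finset.sum_pow'`), which is `1` if `∑ c = n`; if `∑ c ≠ n` there are no such `t`. There are
`(n + 1) ^ 6` functions `c`. -/
theorem sum_types (n : ℕ) (hn : 0 < n) :
    ∑ t : Fin n → Fin 6, ∏ T, ((cnt t T : ℝ) / n) ^ cnt t T ≤ ((n : ℝ) + 1) ^ 6 := by
  classical
  rw [← Finset.sum_fiberwise univ (fun t : Fin n → Fin 6 => fun T : Fin 6 => (⟨cnt t T, C2_le t T⟩ : Fin (n + 1)))
    fun t : Fin n → Fin 6 => ∏ T, ((cnt t T : ℝ) / n) ^ cnt t T]
  have hn' : (n : ℝ) ≠ 0 := Nat.cast_ne_zero.2 hn.ne'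
  have key : ∀ c : Fin 6 → Fin (n + 1),
      ∑ t ∈ univ.filter (fun t : Fin n → Fin 6 => (fun T : Fin 6 => (⟨cnt t T, C2_le t T⟩ : Fin (n + 1))) = c),
        ∏ T, ((cnt t T : ℝ) / n) ^ cnt t T ≤ 1 := by
    intro c
    rcases (univ.filter (fun t : Fin n → Fin 6 =>
      (fun T : Fin 6 => (⟨cnt t T, C2_le t T⟩ : Fin (n + 1))) = c)).eq_empty_or_nonempty with h | h
    · rw [h, sum_empty]
      exact zero_le_one
    · obtain ⟨t0, ht0⟩ := h
      have hc0 := (mem_filter.1 ht0).2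
      have hsum : ∑ T, ((c T : ℕ) : ℝ) / n = 1 := by
        rw [← sum_div, ← hc0, ← Nat.cast_sum, sum_cnt t0, div_self hn']
      have hpow : ∑ t : Fin n → Fin 6, ∏ i, (((c (t i) : ℕ) : ℝ) / n) = 1 := by
        have h1 := Finset.prod_univ_sum (fun _ : Fin n => (univ : Finset (Fin 6)))
          (fun _ T => ((c T : ℕ) : ℝ) / n)
        rw [Fintype.piFinset_univ] at h1
        rw [← h1, prod_congr rfl fun _ _ => hsum, prod_const_one]
      calc _ = ∑ t ∈ univ.filter (fun t : Fin n → Fin 6 =>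
            (fun T : Fin 6 => (⟨cnt t T, C2_le t T⟩ : Fin (n + 1))) = c), ∏ i, (((c (t i) : ℕ) : ℝ) / n) := by
            refine sum_congr rfl fun t ht => ?_
            have hct := (mem_filter.1 ht).2
            rw [← C2_prod t fun T => ((c T : ℕ) : ℝ) / n]
            refine prod_congr rfl fun T _ => ?_
            rw [← hct]
        _ ≤ ∑ t : Fin n → Fin 6, ∏ i, (((c (t i) : ℕ) : ℝ) / n) :=
            sum_le_sum_of_subset_of_nonneg (filter_subset _ _) fun t _ _ =>
              prod_nonneg fun i _ => div_nonneg (Nat.cast_nonneg _) (Nat.cast_nonneg _)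
        _ = 1 := hpow
  refine le_trans (sum_le_sum fun c _ => key c) ?_
  rw [sum_const, card_univ, Fintype.card_fun, Fintype.card_fin, Fintype.card_fin, nsmul_eq_mul, mul_one]
  push_cast
  exact le_rfl

end Pool.Agent.Lib.MP_d41719_co
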