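import Pool.Agent.Lib.MP_d41719_co.C1
import Pool.Agent.Lib.MP_d41719_co.C2

/-!
The factorials of the numbers of the types.
-/

namespace Pool.Agent.Lib.MP_d41719_co

open Finset Nat

/-- PROOF: `fact_le` with `p = cnt t T ≤ n`: `(p !) ^ 3 ≤ (3 * (n + 1) ^ 2) ^ 3 * (p / e) ^ (3 p)`, and
`(p / e) ^ (3 p) = (n / e) ^ (3 p) * (p / n) ^ p * (p / n) ^ (2 p)`, `(p / n) ^ (2 p) = u T ^ (8 p)`. Take the product over the
six `T`; `∑ T, cnt t T = n` (`sum_cnt`). -/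
theorem word_le (n : ℕ) (hn : 0 < n) (t : Fin n → Fin 6) (u : Fin 6 → ℝ)
    (hu4 : ∀ T, u T ^ 4 = (cnt t T : ℝ) / n) :
    ∏ T, ((cnt t T) ! : ℝ) ^ 3 ≤ (3 * ((n : ℝ) + 1) ^ 2) ^ 18 * ((n : ℝ) / Real.exp 1) ^ (3 * n) *
      (∏ T, ((cnt t T : ℝ) / n) ^ cnt t T) * ∏ T, u T ^ (8 * cnt t T) := by
  have hN : (0 : ℝ) < n := by exact_mod_cast hn
  have he : (0 : ℝ) < Real.exp 1 := Real.exp_pos 1
  have hle : ∀ T, cnt t T ≤ n := by
    intro T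
    exact (Finset.single_le_sum (f := fun T => cnt t T) (fun _ _ => Nat.zero_le _)
      (Finset.mem_univ T)).trans (le_of_eq (sum_cnt t))
  have key : ∀ T, ((cnt t T) ! : ℝ) ^ 3 ≤ (3 * ((n : ℝ) + 1) ^ 2) ^ 3 * (((n : ℝ) / Real.exp 1) ^ (3 * cnt t T) *
      (((cnt t T : ℝ) / n) ^ cnt t T * u T ^ (8 * cnt t T))) := by
    intro T
    have h1 := fact_le (cnt t T)
    have hp : (cnt t T : ℝ) ≤ n := by exact_mod_cast hle T
    have hp0 : (0 : ℝ) ≤ cnt t T := Nat.cast_nonneg _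
    have h2 : (0 : ℝ) ≤ ((cnt t T : ℝ) / Real.exp 1) ^ cnt t T := pow_nonneg (div_nonneg hp0 he.le) _
    have h3 : ((cnt t T) ! : ℝ) ≤ 3 * ((n : ℝ) + 1) ^ 2 * ((cnt t T : ℝ) / Real.exp 1) ^ cnt t T := by
      refine h1.trans (mul_le_mul_of_nonneg_right ?_ h2)
      refine mul_le_mul_of_nonneg_left ?_ (by norm_num)
      exact pow_le_pow_left₀ (by linarith) (by linarith) 2
    have h4 : ((cnt t T) ! : ℝ) ^ 3 ≤ (3 * ((n : ℝ) + 1) ^ 2 * ((cnt t T : ℝ) / Real.exp 1) ^ cnt t T) ^ 3 :=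
      pow_le_pow_left₀ (Nat.cast_nonneg _) h3 3
    refine h4.trans (le_of_eq ?_)
    have h5 : ((cnt t T : ℝ) / Real.exp 1) = ((n : ℝ) / Real.exp 1) * ((cnt t T : ℝ) / n) := by
      field_simp
    have h6 : u T ^ (8 * cnt t T) = (((cnt t T : ℝ) / n) ^ cnt t T) ^ 2 := by
      rw [show 8 * cnt t T = 4 * (cnt t T * 2) by ring, pow_mul, hu4, pow_mul]
    rw [h5, h6, mul_comm 3 (cnt t T), pow_mul ((n : ℝ) / Real.exp 1) (cnt t T) 3,
      mul_pow ((n : ℝ) / Real.exp 1)]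
    ring
  calc ∏ T, ((cnt t T) ! : ℝ) ^ 3
      ≤ ∏ T, ((3 * ((n : ℝ) + 1) ^ 2) ^ 3 * (((n : ℝ) / Real.exp 1) ^ (3 * cnt t T) *
        (((cnt t T : ℝ) / n) ^ cnt t T * u T ^ (8 * cnt t T)))) :=
        Finset.prod_le_prod (fun T _ => pow_nonneg (Nat.cast_nonneg _) 3) fun T _ => key T
    _ = _ := by
        rw [Finset.prod_mul_distrib, Finset.prod_mul_distrib, Finset.prod_mul_distrib, Finset.prod_const,
          Finset.card_univ, Fintype.card_fin, ← pow_mul, Finset.prod_pow_eq_pow_sum, ← Finset.mul_sum, sum_cnt]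
        ring

end Pool.Agent.Lib.MP_d41719_co
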