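import Pool.Agent.Lib.MP_d41719_co.BDefs

/-!
The labels of the half-edges of a word of states.
-/

namespace Pool.Agent.Lib.MP_d41719_co

open Finset

/-- PROOF: `lab s (u, i) = (T, k)` iff `(s u).1 = T` and `i = (s u).2⁻¹ k`: for every `u` of the type `T` there is exactly
one `i`. -/
theorem lab_card {n : ℕ} (s : Fin n → St) (p : Lb) :
    (univ.filter fun h => lab s h = p).card = cnt (fun u => (s u).1) p.1 := by
  unfold cnt
  symm
  refine Finset.card_bij (fun u _ => (u, (s u).2⁻¹ p.2)) ?_ ?_ ?_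
  · intro u hu
    rw [Finset.mem_filter] at hu ⊢
    refine ⟨Finset.mem_univ _, ?_⟩
    have h1 : (s u).2 ((s u).2⁻¹ p.2) = p.2 := Equiv.apply_symm_apply (s u).2 p.2
    unfold lab
    exact Prod.ext hu.2 h1
  · intro u _ v _ h
    exact (Prod.mk.inj h).1
  · rintro ⟨u, i⟩ h
    rw [Finset.mem_filter] at h
    have h2 := h.2
    unfold lab at h2
    refine ⟨u, ?_, ?_⟩
    · rw [Finset.mem_filter]
      exact ⟨Finset.mem_univ _, by rw [← h2]⟩
    · rw [← h2]
      simp

/-- PROOF: `∏ h = ∏ u, ∏ i` (`Fintype.prod_prod_type`), the inner product is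
`∏ k, xx a u (T, k) = a * u T ^ 2 * u T ^ 3 * u T ^ 3` (`Equiv.prod_comp`), and
`∏ v, f (s v).1 = ∏ T, f T ^ cnt (..) T` (`Finset.prod_fiberwise` or `Finset.prod_comp`). -/
theorem prod_xx {n : ℕ} (s : Fin n → St) (a : ℝ) (u : Fin 6 → ℝ) :
    ∏ h : Hf n, xx a u (lab s h) = a ^ n * ∏ T, u T ^ (8 * cnt (fun v => (s v).1) T) := by
  rw [Fintype.prod_prod_type]
  have h1 : ∀ v : Fin n, ∏ i : Fin 3, xx a u (lab s (v, i)) = a * u (s v).1 ^ 8 := by
    intro v
    have h2 : ∏ i : Fin 3, xx a u (lab s (v, i)) = ∏ k : Fin 3, xx a u ((s v).1, k) := by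
      exact Equiv.prod_comp (s v).2 (fun k => xx a u ((s v).1, k))
    rw [h2, Fin.prod_univ_three]
    unfold xx
    simp only [if_true, if_neg (show (1 : Fin 3) ≠ 0 by decide), if_neg (show (2 : Fin 3) ≠ 0 by decide)]
    ring
  rw [Finset.prod_congr rfl (fun v _ => h1 v), Finset.prod_mul_distrib, Finset.prod_const,
    Finset.card_univ, Fintype.card_fin]
  congr 1
  rw [← Finset.prod_fiberwise (s := (Finset.univ : Finset (Fin n))) (g := fun v => (s v).1)]
  refine Finset.prod_congr rfl (fun T _ => ?_)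
  rw [Finset.prod_congr rfl (g := fun _ => u T ^ 8)]
  · rw [Finset.prod_const, ← pow_mul]
    rfl
  · intro v hv
    rw [Finset.mem_filter] at hv
    rw [hv.2]

end Pool.Agent.Lib.MP_d41719_co
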