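import Pool.Agent.Lib.MP_d41719_co.A2
import Pool.Agent.Lib.MP_d41719_co.B3
import Pool.Agent.Lib.MP_d41719_co.C3
import Pool.Agent.Lib.MP_d41719_co.C4

/-!
The first moment for two words of states.
-/

namespace Pool.Agent.Lib.MP_d41719_co

open Finset Nat

/-- The number `Z ^ 3 / (729 a ^ 2)`. -/
noncomputable def zp : ℝ := (12571 / 5000) ^ 3 / (729 * (4 / 5))

private theorem C5_root (n : ℕ) (hn : 0 < n) (r : Fin n → Fin 6) :
    ∃ u : Fin 6 → ℝ, (∀ T, 0 ≤ u T) ∧ (∀ T, u T ^ 4 = (cnt r T : ℝ) / n) ∧ (∑ T, u T ^ 4 = 1) ∧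
      0 < ∏ T, u T ^ (8 * cnt r T) := by
  have hn' : (0 : ℝ) < n := by exact_mod_cast hn
  have h4 : ∀ T, (Real.sqrt (Real.sqrt ((cnt r T : ℝ) / n))) ^ 4 = (cnt r T : ℝ) / n := by
    intro T
    have h0 : (0 : ℝ) ≤ (cnt r T : ℝ) / n := by positivity
    have e : (Real.sqrt (Real.sqrt ((cnt r T : ℝ) / n))) ^ 4 =
        ((Real.sqrt (Real.sqrt ((cnt r T : ℝ) / n))) ^ 2) ^ 2 := by ring
    rw [e, Real.sq_sqrt (Real.sqrt_nonneg _), Real.sq_sqrt h0]
  refine ⟨fun T => Real.sqrt (Real.sqrt ((cnt r T : ℝ) / n)), fun T => Real.sqrt_nonneg _, h4, ?_, ?_⟩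
  · simp_rw [h4]
    rw [← Finset.sum_div]
    have h := sum_cnt r
    have h' : ∑ T, (cnt r T : ℝ) = n := by exact_mod_cast h
    rw [h']
    exact div_self hn'.ne'
  · refine Finset.prod_pos fun T _ => ?_
    rcases Nat.eq_zero_or_pos (cnt r T) with h | h
    · rw [h]
      simp
    · have : (0 : ℝ) < (cnt r T : ℝ) / n := div_pos (by exact_mod_cast h) hn'
      exact pow_pos (Real.sqrt_pos.2 (Real.sqrt_pos.2 this)) _

private theorem C5_fact {n : ℕ} (s : Fin n → St) :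
    ∏ p : Lb, ((univ.filter fun h => lab s h = p).card ! : ℝ) = ∏ T, ((cnt (fun u => (s u).1) T) ! : ℝ) ^ 3 := by
  simp_rw [lab_card]
  rw [Fintype.prod_prod_type]
  refine Finset.prod_congr rfl fun T _ => ?_
  simp

private theorem C5_alg {n : ℕ} {A F S K E P Q U W Z : ℝ} (hU : 0 < U) (hW : 0 < W) (hF : 0 < F)
    (hA : 0 < A) (hKPQ : 0 ≤ K * P * Q * Z)
    (hE : E * 729 ^ n ≤ F ^ 2)
    (h : A * U * W * F * S ≤ K * E * P * Q * U * W * Z) :
    S ≤ F * K * (Z / (729 ^ n * A)) * (P * Q) := by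
  have h1 : A * F * S ≤ K * E * P * Q * Z := by
    have hUW : 0 < U * W := mul_pos hU hW
    refine le_of_mul_le_mul_right ?_ hUW
    calc A * F * S * (U * W) = A * U * W * F * S := by ring
      _ ≤ K * E * P * Q * U * W * Z := h
      _ = K * E * P * Q * Z * (U * W) := by ring
  have h7 : (0 : ℝ) < 729 ^ n := by positivity
  have h2 : A * F * S * 729 ^ n ≤ K * P * Q * Z * F ^ 2 := by
    calc A * F * S * 729 ^ n ≤ K * E * P * Q * Z * 729 ^ n := mul_le_mul_of_nonneg_right h1 h7.le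
      _ = K * P * Q * Z * (E * 729 ^ n) := by ring
      _ ≤ K * P * Q * Z * F ^ 2 := mul_le_mul_of_nonneg_left hE hKPQ
  have h3 : F * K * (Z / (729 ^ n * A)) * (P * Q) = (K * P * Q * Z * F ^ 2) / (729 ^ n * A * F) := by
    field_simp
  rw [h3, le_div_iff₀ (by positivity)]
  calc S * (729 ^ n * A * F) = A * F * S * 729 ^ n := by ring
    _ ≤ _ := h2

/-- PROOF: Let `p T = cnt (s ·).1 T`, `q T` for `t`; `u T = √√(p T / n)`, `w T = √√(q T / n)`, so `∑ u ^ 4 = 1` (`sum_cnt`);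
`a = √(4/5)`. `perm_sum_le` for `H = Hf n` (`3 n` elements), `M = wt`, `x = xx a u`, `y = xx a w`, `l = lab s`, `l' = lab t`, with
`prod_xx`, `lab_card` (`∏ p : Lb, (cnt .. p.1) ! = ∏ T, (cnt .. T) ! ^ 3`), `zsum_le` and `word_le` (twice):
`(4/5) ^ n * U * W * (3n)! * Σ ≤ (3 (n+1)^2) ^ 36 * (n/e) ^ (6 n) * Πp * Πq * U * W * (12571/5000) ^ (3 n)` where
`U = ∏ T, u T ^ (8 * p T) > 0` (if `p T > 0` then `u T > 0`), `W` similarly. Cancel `U * W`. By `le_fact (3 n)`: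
`(n/e) ^ (6 n) * 729 ^ n = ((3n/e) ^ (3n)) ^ 2 ≤ ((3n)!) ^ 2`. -/
theorem pair_le (n : ℕ) (hn : 0 < n) (s t : Fin n → St) :
    ∑ π : Equiv.Perm (Hf n), ∏ h, wt (lab s h) (lab t (π h)) ≤
      ((3 * n) ! : ℝ) * (3 * ((n : ℝ) + 1) ^ 2) ^ 36 * zp ^ n *
        ((∏ T, ((cnt (fun u => (s u).1) T : ℝ) / n) ^ cnt (fun u => (s u).1) T) *
          ∏ T, ((cnt (fun u => (t u).1) T : ℝ) / n) ^ cnt (fun u => (t u).1) T) := by
  obtain ⟨u, hu, hu4, hu1, hU⟩ := C5_root n hn (fun v => (s v).1)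
  obtain ⟨w, hw, hw4, hw1, hW⟩ := C5_root n hn (fun v => (t v).1)
  have ha : (0 : ℝ) ≤ Real.sqrt (4 / 5) := Real.sqrt_nonneg _
  have ha2 : Real.sqrt (4 / 5) ^ 2 = 4 / 5 := Real.sq_sqrt (by norm_num)
  have hxx : ∀ (v : Fin 6 → ℝ), (∀ T, 0 ≤ v T) → ∀ p : Lb, 0 ≤ xx (Real.sqrt (4 / 5)) v p := by
    intro v hv p
    unfold xx
    split_ifs
    · exact mul_nonneg ha (pow_nonneg (hv _) _)
    · exact pow_nonneg (hv _) _
  have hl : 0 ≤ lam := by
    unfold lam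
    positivity
  have hM : ∀ a b, 0 ≤ wt a b := by
    intro a b
    unfold wt
    split_ifs
    · exact zero_le_one
    · exact hl
  have hc : Fintype.card (Hf n) = 3 * n := by
    rw [Fintype.card_prod, Fintype.card_fin, Fintype.card_fin, mul_comm]
  have h1 := perm_sum_le wt hM (xx (Real.sqrt (4 / 5)) u) (xx (Real.sqrt (4 / 5)) w) (hxx u hu)
    (hxx w hw) (lab s) (lab t)
  rw [prod_xx, prod_xx, C5_fact, C5_fact, hc] at h1
  have hz := zsum_le _ ha ha2 u w hu hw hu1 hw1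
  have hz0 : 0 ≤ ∑ p : Lb, ∑ q : Lb, xx (Real.sqrt (4 / 5)) u p * xx (Real.sqrt (4 / 5)) w q * wt p q :=
    Finset.sum_nonneg fun p _ => Finset.sum_nonneg fun q _ =>
      mul_nonneg (mul_nonneg (hxx u hu p) (hxx w hw q)) (hM p q)
  have hzp := pow_le_pow_left₀ hz0 hz (3 * n)
  have hws := word_le n hn (fun v => (s v).1) u hu4
  have hwt := word_le n hn (fun v => (t v).1) w hw4
  have hf := le_fact (3 * n)
  have hP : 0 ≤ ∏ T, ((cnt (fun u => (s u).1) T : ℝ) / n) ^ cnt (fun u => (s u).1) T :=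
    Finset.prod_nonneg fun T _ => by positivity
  have hQ : 0 ≤ ∏ T, ((cnt (fun u => (t u).1) T : ℝ) / n) ^ cnt (fun u => (t u).1) T :=
    Finset.prod_nonneg fun T _ => by positivity
  have hs0 : 0 ≤ ∏ T, ((cnt (fun u => (s u).1) T) ! : ℝ) ^ 3 := Finset.prod_nonneg fun T _ => by positivity
  have ht0 : 0 ≤ ∏ T, ((cnt (fun u => (t u).1) T) ! : ℝ) ^ 3 := Finset.prod_nonneg fun T _ => by positivity
  have hE : (((n : ℝ) / Real.exp 1) ^ (3 * n) * ((n : ℝ) / Real.exp 1) ^ (3 * n)) * 729 ^ n ≤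
      ((3 * n) ! : ℝ) ^ 2 := by
    have he : (((n : ℝ) / Real.exp 1) ^ (3 * n) * ((n : ℝ) / Real.exp 1) ^ (3 * n)) * 729 ^ n =
        ((((3 * n : ℕ) : ℝ) / Real.exp 1) ^ (3 * n)) ^ 2 := by
      have h729 : (729 : ℝ) ^ n = (3 ^ (3 * n)) ^ 2 := by
        rw [← pow_mul, show 3 * n * 2 = 6 * n by ring, pow_mul]
        norm_num
      rw [h729]
      push_cast
      rw [mul_div_assoc, mul_pow]
      ring
    rw [he]
    exact pow_le_pow_left₀ (by positivity) hf 2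
  have hF : (0 : ℝ) < ((3 * n) ! : ℝ) := by exact_mod_cast Nat.factorial_pos _
  have hZ : zp ^ n = (12571 / 5000 : ℝ) ^ (3 * n) / (729 ^ n * (4 / 5) ^ n) := by
    unfold zp
    rw [div_pow, mul_pow, pow_mul]
  rw [hZ]
  refine C5_alg (n := n) (A := (4 / 5) ^ n) hU hW hF (by positivity) ?_ hE ?_
  · exact mul_nonneg (mul_nonneg (mul_nonneg (by positivity) hP) hQ) (by positivity)
  · have hA : (Real.sqrt (4 / 5)) ^ n * (Real.sqrt (4 / 5)) ^ n = (4 / 5 : ℝ) ^ n := by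
      rw [← mul_pow, ← _root_.pow_two, ha2]
    calc (4 / 5 : ℝ) ^ n * (∏ T, u T ^ (8 * cnt (fun v => (s v).1) T)) *
          (∏ T, w T ^ (8 * cnt (fun v => (t v).1) T)) * ((3 * n) ! : ℝ) *
          ∑ π : Equiv.Perm (Hf n), ∏ h, wt (lab s h) (lab t (π h))
        = (Real.sqrt (4 / 5)) ^ n * (∏ T, u T ^ (8 * cnt (fun v => (s v).1) T)) *
          ((Real.sqrt (4 / 5)) ^ n * (∏ T, w T ^ (8 * cnt (fun v => (t v).1) T))) * ((3 * n) ! : ℝ) *
          ∑ π : Equiv.Perm (Hf n), ∏ h, wt (lab s h) (lab t (π h)) := by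
          rw [← hA]
          ring
      _ ≤ _ := h1
      _ ≤ (((3 * ((n : ℝ) + 1) ^ 2) ^ 18 * ((n : ℝ) / Real.exp 1) ^ (3 * n) *
            (∏ T, ((cnt (fun u => (s u).1) T : ℝ) / n) ^ cnt (fun u => (s u).1) T) *
              ∏ T, u T ^ (8 * cnt (fun v => (s v).1) T)) *
          ((3 * ((n : ℝ) + 1) ^ 2) ^ 18 * ((n : ℝ) / Real.exp 1) ^ (3 * n) *
            (∏ T, ((cnt (fun u => (t u).1) T : ℝ) / n) ^ cnt (fun u => (t u).1) T) *
              ∏ T, w T ^ (8 * cnt (fun v => (t v).1) T))) * (12571 / 5000) ^ (3 * n) := by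
          refine mul_le_mul ?_ hzp (pow_nonneg hz0 _) ?_
          · exact mul_le_mul hws hwt ht0 (le_trans hs0 hws)
          · exact mul_nonneg (le_trans hs0 hws) (le_trans ht0 hwt)
      _ = _ := by ring

end Pool.Agent.Lib.MP_d41719_co
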