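import Pool.Agent.Lib.MP_d41719_co.C5

/-!
The first moment.
-/

namespace Pool.Agent.Lib.MP_d41719_co

open Finset Nat

/-- PROOF: functions to `St = Fin 6 × Perm (Fin 3)` are pairs of functions (`Equiv.arrowProdEquivProdArrow`), and there are
`6 ^ n` functions to `Perm (Fin 3)`. -/
theorem sum_st (n : ℕ) (f : (Fin n → Fin 6) → ℝ) :
    ∑ s : Fin n → St, f (fun u => (s u).1) = 6 ^ n * ∑ t : Fin n → Fin 6, f t := by
  have h1 : ∑ s : Fin n → St, f (fun u => (s u).1) =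
      ∑ x : (Fin n → Fin 6) × (Fin n → Equiv.Perm (Fin 3)), f x.1 :=
    Fintype.sum_equiv (Equiv.arrowProdEquivProdArrow (Fin n) (fun _ => Fin 6) (fun _ => Equiv.Perm (Fin 3))) _ _ fun _ => rfl
  rw [h1, Fintype.sum_prod_type, Finset.mul_sum]
  refine Finset.sum_congr rfl fun t _ => ?_
  show ∑ _y : Fin n → Equiv.Perm (Fin 3), f t = 6 ^ n * f t
  rw [Finset.sum_const, Finset.card_univ, Fintype.card_fun, Fintype.card_perm, Fintype.card_fin, Fintype.card_fin, nsmul_eq_mul]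
  have h2 : (3 : ℕ)! = 6 := rfl
  rw [h2]
  push_cast
  rfl

/-- PROOF: sum `pair_le` over `s` and `t`; `sum_st`, `sum_types` for both; `6 ^ n * 6 ^ n = 36 ^ n`. -/
theorem first_moment (n : ℕ) (hn : 0 < n) :
    ∑ s : Fin n → St, ∑ t : Fin n → St, ∑ π : Equiv.Perm (Hf n), ∏ h, wt (lab s h) (lab t (π h)) ≤
      ((3 * n) ! : ℝ) * ((3 * ((n : ℝ) + 1) ^ 2) ^ 36 * ((n : ℝ) + 1) ^ 12) * (36 * zp) ^ n := by
  obtain ⟨G, hG⟩ : ∃ G : (Fin n → Fin 6) → ℝ, G = fun t => ∏ T, ((cnt t T : ℝ) / n) ^ cnt t T := ⟨_, rfl⟩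
  have hG0 : ∀ t, 0 ≤ G t := fun t => by
    rw [hG]
    exact Finset.prod_nonneg fun T _ => by positivity
  have hsum : ∑ t, G t ≤ ((n : ℝ) + 1) ^ 6 := by
    rw [hG]
    exact sum_types n hn
  have hs0 : 0 ≤ ∑ t, G t := Finset.sum_nonneg fun t _ => hG0 t
  have hzp : 0 ≤ zp := by
    unfold zp
    positivity
  obtain ⟨C, hC⟩ : ∃ C : ℝ, C = ((3 * n) ! : ℝ) * (3 * ((n : ℝ) + 1) ^ 2) ^ 36 * zp ^ n := ⟨_, rfl⟩
  have hC0 : 0 ≤ C := by
    rw [hC]
    positivity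
  have h1 : ∀ s t : Fin n → St, ∑ π : Equiv.Perm (Hf n), ∏ h, wt (lab s h) (lab t (π h)) ≤
      C * (G (fun u => (s u).1) * G (fun u => (t u).1)) := by
    intro s t
    rw [hC, hG]
    exact pair_le n hn s t
  have h2 : ∑ s : Fin n → St, ∑ t : Fin n → St, C * (G (fun u => (s u).1) * G (fun u => (t u).1)) =
      C * (36 ^ n * ((∑ t, G t) * ∑ t, G t)) := by
    have h3 : ∀ s : Fin n → St, ∑ t : Fin n → St, C * (G (fun u => (s u).1) * G (fun u => (t u).1)) =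
        (C * (6 ^ n * ∑ t, G t)) * G (fun u => (s u).1) := by
      intro s
      rw [← Finset.mul_sum, ← Finset.mul_sum, sum_st n G]
      ring
    rw [Finset.sum_congr rfl fun s _ => h3 s, ← Finset.mul_sum, sum_st n G]
    have h4 : (36 : ℝ) ^ n = 6 ^ n * 6 ^ n := by
      rw [← mul_pow]
      norm_num
    rw [h4]
    ring
  have h5 : (∑ t, G t) * ∑ t, G t ≤ ((n : ℝ) + 1) ^ 12 := by
    calc (∑ t, G t) * ∑ t, G t ≤ ((n : ℝ) + 1) ^ 6 * ((n : ℝ) + 1) ^ 6 :=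
          mul_le_mul hsum hsum hs0 (by positivity)
      _ = _ := by ring
  calc ∑ s : Fin n → St, ∑ t : Fin n → St, ∑ π : Equiv.Perm (Hf n), ∏ h, wt (lab s h) (lab t (π h)) ≤
      ∑ s : Fin n → St, ∑ t : Fin n → St, C * (G (fun u => (s u).1) * G (fun u => (t u).1)) :=
        Finset.sum_le_sum fun s _ => Finset.sum_le_sum fun t _ => h1 s t
    _ = C * (36 ^ n * ((∑ t, G t) * ∑ t, G t)) := h2
    _ ≤ C * (36 ^ n * ((n : ℝ) + 1) ^ 12) :=
        mul_le_mul_of_nonneg_left (mul_le_mul_of_nonneg_left h5 (by positivity)) hC0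
    _ = _ := by
        rw [hC, mul_pow]
        ring

end Pool.Agent.Lib.MP_d41719_co
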