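import Mathlib

/-!
Permutations with given values.
-/

namespace Pool.Agent.Lib.MP_d41719_co

open Finset Nat

/-- PROOF: If there is no such permutation the bound is trivial. Let `π₀` be one. `π ↦ π₀⁻¹ * π` is a bijection to the
permutations `ρ` with `ρ (a i) = a i` for all `i`, i.e. which fix the range of `a`; these are the permutations of the
complement (`Equiv.Perm.subtypeEquivSubtypePerm`), which has `|H| - |A|` elements. -/
theorem card_ext {H A : Type} [Fintype H] [DecidableEq H] [Fintype A] (a b : A → H)
    (ha : Function.Injective a) :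
    (univ.filter fun π : Equiv.Perm H => ∀ i, π (a i) = b i).card ≤ (Fintype.card H - Fintype.card A) ! := by
  classical
  rcases (univ.filter fun π : Equiv.Perm H => ∀ i, π (a i) = b i).eq_empty_or_nonempty with h | ⟨π₀, h⟩
  · rw [h, card_empty]
    exact Nat.zero_le _
  · have h0 : ∀ i, π₀ (a i) = b i := (mem_filter.1 h).2
    let p : H → Prop := fun x => x ∉ Set.range a
    have e1 : Fintype.card {f : Equiv.Perm H // ∀ x, ¬ p x → f x = x} =
        (Fintype.card H - Fintype.card A) ! := by
      rw [← Fintype.card_congr (Equiv.Perm.subtypeEquivSubtypePerm p), Fintype.card_perm]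
      have e2 : Fintype.card {x // p x} = Fintype.card H - Fintype.card A := by
        have e3 : Fintype.card {x // ¬ (x ∈ Set.range a)} = Fintype.card H - Fintype.card {x // x ∈ Set.range a} :=
          Fintype.card_subtype_compl _
        have e4 : Fintype.card {x // x ∈ Set.range a} = Fintype.card A :=
          (Fintype.card_congr (Equiv.ofInjective a ha)).symm
        rw [e4] at e3
        exact e3
      rw [e2]
    rw [← e1, ← Fintype.card_subtype]
    refine Fintype.card_le_of_injective
      (fun π : {π : Equiv.Perm H // ∀ i, π (a i) = b i} =>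
        (⟨π₀⁻¹ * π.1, fun x hx => by
          obtain ⟨i, rfl⟩ := not_not.1 hx
          rw [Equiv.Perm.mul_apply, π.2 i, ← h0 i]
          exact Equiv.symm_apply_apply π₀ (a i)⟩ :
          {f : Equiv.Perm H // ∀ x, ¬ p x → f x = x})) ?_
    intro π σ hs
    have h1 : π₀⁻¹ * π.1 = π₀⁻¹ * σ.1 := congrArg Subtype.val hs
    exact Subtype.ext (mul_left_cancel h1)

end Pool.Agent.Lib.MP_d41719_co
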