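import Pool.Agent.Lib.MP_d41719_co.Defs
import Pool.Agent.Lib.MP_d41719_co.D1

/-!
The number of the realised patterns in the mean.
-/

namespace Pool.Agent.Lib.MP_d41719_co

open Finset Nat

/-- PROOF: exchange the sums (`Finset.sum_comm`, `Finset.card_filter`): `∑ k ≤ g, ∑ θ, #{π | Rea π θ}`. For `θ` with
injective `lft θ` this is at most `(3 n - 2 k) !` (`card_ext` with `A = Fin k ⊕ Fin k`), otherwise zero. There are
`n ^ k * n ^ k * 3 ^ (2 k) * 3 ^ (2 k) = 81 ^ k * n ^ (2 k)` patterns, and `n ^ (2 k) * (3 n - 2 k) ! ≤ (3 n) !`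
(`Nat.factorial_mul_pow_le_factorial`, `n ≤ 3 n - 2 k + 1` as `k ≤ g ≤ n`). -/
theorem sum_rea (g n : ℕ) (hgn : g ≤ n) :
    ∑ π : Equiv.Perm (Hf n), rea g π ≤ (3 * n) ! * ∑ k ∈ range (g + 1), 81 ^ k := by
  classical
  unfold rea
  rw [Finset.sum_comm, Finset.mul_sum]
  refine Finset.sum_le_sum fun k hk => ?_
  have hk' : k ≤ n := by
    rw [mem_range] at hk
    omega
  have h1 : ∑ π : Equiv.Perm (Hf n), (univ.filter fun θ : Pat n k => Rea π θ).card =
      ∑ θ : Pat n k, (univ.filter fun π : Equiv.Perm (Hf n) => Rea π θ).card := by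
    simp only [Finset.card_filter]
    rw [Finset.sum_comm]
  rw [h1]
  have h2 : ∀ θ : Pat n k, (univ.filter fun π : Equiv.Perm (Hf n) => Rea π θ).card ≤
      (3 * n - 2 * k) ! := by
    intro θ
    by_cases hθ : Function.Injective (lft θ)
    · refine le_trans (Finset.card_le_card ?_) ((card_ext (lft θ) (rgt θ) hθ).trans ?_)
      · intro π hπ
        rw [mem_filter] at hπ ⊢
        exact ⟨mem_univ _, hπ.2.2⟩
      · apply le_of_eq
        have h3 : Fintype.card (Hf n) = 3 * n := by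
          rw [Fintype.card_prod, Fintype.card_fin, Fintype.card_fin, mul_comm]
        have h4 : Fintype.card (Fin k ⊕ Fin k) = 2 * k := by
          rw [Fintype.card_sum, Fintype.card_fin, two_mul]
        rw [h3, h4]
    · rw [filter_eq_empty_iff.2 fun π _ hπ => hθ hπ.1, card_empty]
      exact Nat.zero_le _
  have h5 : Fintype.card (Pat n k) = 81 ^ k * n ^ (2 * k) := by
    simp only [Pat, Fintype.card_prod, Fintype.card_fun, Fintype.card_fin, Fintype.card_sum]
    have h6 : (81 : ℕ) ^ k = 3 ^ (k + k) * 3 ^ (k + k) := by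
      rw [← pow_add, show (81 : ℕ) = 3 ^ 4 by norm_num, ← pow_mul]
      congr 1
      omega
    rw [h6, two_mul, pow_add n]
    ring
  have h7 : (3 * n - 2 * k) ! * n ^ (2 * k) ≤ (3 * n) ! := by
    have h8 := Nat.factorial_mul_pow_le_factorial (m := 3 * n - 2 * k) (n := 2 * k)
    have h9 : 3 * n - 2 * k + 2 * k = 3 * n := by omega
    rw [h9] at h8
    refine le_trans (Nat.mul_le_mul_left _ (Nat.pow_le_pow_left ?_ _)) h8
    omega
  calc ∑ θ : Pat n k, (univ.filter fun π : Equiv.Perm (Hf n) => Rea π θ).card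
      ≤ ∑ θ : Pat n k, (3 * n - 2 * k) ! := sum_le_sum fun θ _ => h2 θ
    _ = 81 ^ k * ((3 * n - 2 * k) ! * n ^ (2 * k)) := by
      rw [sum_const, Finset.card_univ, h5, smul_eq_mul]
      ring
    _ ≤ 81 ^ k * (3 * n) ! := Nat.mul_le_mul_left _ h7
    _ = (3 * n) ! * 81 ^ k := mul_comm _ _

/-- PROOF: the set is the union over `k ≤ g` and the realised `θ` of the ranges of `lft θ`, each with at most `2 k ≤ 2 g`
elements. -/
theorem del_card {n : ℕ} (g : ℕ) (π : Equiv.Perm (Hf n)) : (del g π).ncard ≤ 2 * g * rea g π := by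
  classical
  have h1 : del g π ⊆ ↑((range (g + 1)).biUnion fun k =>
      (univ.filter fun θ : Pat n k => Rea π θ).biUnion fun θ => univ.image (lft θ)) := by
    rintro h ⟨k, hk, θ, hθ, i, rfl⟩
    rw [mem_coe, mem_biUnion]
    exact ⟨k, mem_range.2 (by omega), mem_biUnion.2 ⟨θ, mem_filter.2 ⟨mem_univ _, hθ⟩,
      mem_image.2 ⟨i, mem_univ _, rfl⟩⟩⟩
  refine (Set.ncard_le_ncard h1 (Finset.finite_toSet _)).trans ?_
  rw [Set.ncard_coe_finset]
  refine card_biUnion_le.trans ?_
  unfold rea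
  rw [mul_sum]
  refine sum_le_sum fun k hk => ?_
  refine card_biUnion_le.trans ?_
  have hk' : k ≤ g := by
    rw [mem_range] at hk
    omega
  have h2 : ∀ θ ∈ (univ.filter fun θ : Pat n k => Rea π θ), (univ.image (lft θ)).card ≤ 2 * g := by
    intro θ _
    refine card_image_le.trans ?_
    rw [Finset.card_univ, Fintype.card_sum, Fintype.card_fin]
    omega
  refine (sum_le_card_nsmul _ _ _ h2).trans ?_
  rw [smul_eq_mul, mul_comm]

end Pool.Agent.Lib.MP_d41719_co
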