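import Pool.Agent.Lib.MP_d41719_co.SDefs

/-!
The model: a permutation of the half-edges, states of the vertices, short patterns.
-/

namespace Pool.Agent.Lib.MP_d41719_co

/-- The half-edges of one side: three at each of the `n` vertices. -/
abbrev Hf (n : ℕ) := Fin n × Fin 3

/-- The six types of covered vertices: the colours of the three edges, one of them is `0`. The types `2 m` and `2 m + 1`
are complementary. -/
def base : Fin 6 → Fin 3 → Fin 5 := ![![0, 1, 2], ![0, 3, 4], ![0, 1, 3], ![0, 2, 4], ![0, 1, 4], ![0, 2, 3]]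

/-- The states of a vertex: a type and an arrangement. The half-edge `i` has the colour `base T (ρ i)`. -/
abbrev St := Fin 6 × Equiv.Perm (Fin 3)

/-- The labels of the half-edges. -/
abbrev Lb := Fin 6 × Fin 3

/-- The label of a half-edge. -/
def lab {n : ℕ} (s : Fin n → St) (h : Hf n) : Lb := ((s h.1).1, (s h.1).2 h.2)

/-- Two labels can be at the two ends of an edge: the colours are equal, and the other edges at the two ends have no
common colour besides `0`. -/
def Cmp (a b : Lb) : Prop :=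
  base a.1 a.2 = base b.1 b.2 ∧ ∀ i, i ≠ a.2 → ∀ j, j ≠ b.2 → base a.1 i = base b.1 j → base a.1 i = 0

instance : DecidableRel Cmp := fun a b => by unfold Cmp; infer_instance

/-- The weight of a violation. -/
noncomputable def lam : ℝ := (989 / 1000) ^ 1000

/-- The weight of a pair of labels. -/
noncomputable def wt (a b : Lb) : ℝ := if Cmp a b then 1 else lam

/-- The number of violations. -/
def viol {n : ℕ} (s t : Fin n → St) (π : Equiv.Perm (Hf n)) : ℕ :=
  (Finset.univ.filter fun h => ¬ Cmp (lab s h) (lab t (π h))).card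

/-- The number of the vertices of the type `T`. -/
def cnt {n : ℕ} (t : Fin n → Fin 6) (T : Fin 6) : ℕ := (Finset.univ.filter fun u => t u = T).card

/-- Patterns of closed sequences of length `2 k`: left vertices `u j`, right vertices `v j`, and the half-edges of the edges
from `u j` to `v j` (`inl j`) and from `v j` to `u (j + 1)` (`inr j`). -/
abbrev Pat (n k : ℕ) :=
  (Fin k → Fin n) × (Fin k → Fin n) × (Fin k ⊕ Fin k → Fin 3) × (Fin k ⊕ Fin k → Fin 3)

/-- The left half-edges of a pattern. -/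
def lft {n k : ℕ} (θ : Pat n k) (i : Fin k ⊕ Fin k) : Hf n :=
  (θ.1 (Sum.elim id (finRotate k) i), θ.2.2.1 i)

/-- The right half-edges of a pattern. -/
def rgt {n k : ℕ} (θ : Pat n k) (i : Fin k ⊕ Fin k) : Hf n :=
  (θ.2.1 (Sum.elim id id i), θ.2.2.2 i)

/-- The pattern is realised by the permutation. -/
def Rea {n k : ℕ} (π : Equiv.Perm (Hf n)) (θ : Pat n k) : Prop :=
  Function.Injective (lft θ) ∧ ∀ i, π (lft θ i) = rgt θ i

open Classical in
/-- The number of the realised patterns of length at most `2 g`. -/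
noncomputable def rea {n : ℕ} (g : ℕ) (π : Equiv.Perm (Hf n)) : ℕ :=
  ∑ k ∈ Finset.range (g + 1), (Finset.univ.filter fun θ : Pat n k => Rea π θ).card

/-- The left half-edges of the realised patterns of length at most `2 g`. -/
def del {n : ℕ} (g : ℕ) (π : Equiv.Perm (Hf n)) : Set (Hf n) :=
  {h | ∃ k ≤ g, ∃ θ : Pat n k, Rea π θ ∧ ∃ i, lft θ i = h}

/-- The left vertex `u` and the right vertex `v` are joined by a half-edge which is not deleted. -/
def Ed {n : ℕ} (D : Set (Hf n)) (π : Equiv.Perm (Hf n)) (u v : Fin n) : Prop :=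
  ∃ i j, (u, i) ∉ D ∧ π (u, i) = (v, j)

/-- The graph of a permutation without the deleted half-edges. -/
def gr {n : ℕ} (D : Set (Hf n)) (π : Equiv.Perm (Hf n)) : SimpleGraph (Fin n ⊕ Fin n) where
  Adj x y := (∃ u v, x = Sum.inl u ∧ y = Sum.inr v ∧ Ed D π u v) ∨ ∃ u v, x = Sum.inr v ∧ y = Sum.inl u ∧ Ed D π u v
  symm := ⟨by
    rintro x y (⟨u, v, hx, hy, h⟩ | ⟨u, v, hx, hy, h⟩)
    · exact Or.inr ⟨u, v, hy, hx, h⟩
    · exact Or.inl ⟨u, v, hy, hx, h⟩⟩
  loopless := ⟨by
    rintro x (⟨u, v, hx, hy, h⟩ | ⟨u, v, hx, hy, h⟩)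
    · rw [hx] at hy
      exact absurd hy (by simp)
    · rw [hx] at hy
      exact absurd hy (by simp)⟩

theorem gr_adj {n : ℕ} {D : Set (Hf n)} {π : Equiv.Perm (Hf n)} {u v : Fin n} :
    (gr D π).Adj (Sum.inl u) (Sum.inr v) ↔ Ed D π u v := by
  constructor
  · rintro (⟨u', v', hx, hy, h⟩ | ⟨u', v', hx, hy, h⟩)
    · rw [Sum.inl.inj hx, Sum.inr.inj hy]
      exact h
    · exact absurd hx (by simp)
  · exact fun h => Or.inl ⟨u, v, rfl, rfl, h⟩

end Pool.Agent.Lib.MP_d41719_co
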