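import Pool.Agent.Lib.MP_d41719_co.C5

/-!
The numbers.
-/

namespace Pool.Agent.Lib.MP_d41719_co

open Finset Filter

private theorem E1_r : 0 < 36 * zp / (989 / 1000) ∧ 36 * zp / (989 / 1000) < 1 := by
  unfold zp
  constructor <;> norm_num

/-- PROOF: `36 * zp / (989/1000) < 1` (`norm_num [zp]`), and a polynomial times the `n`-th power of a number less than one
tends to zero (`tendsto_pow_const_mul_const_pow_of_abs_lt_one`; bound `(3 (n+1)^2) ^ 36 * (n+1) ^ 12` by a constant times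
`n ^ 84` for `n ≥ 1`, or shift by one). -/
theorem small_eventually :
    ∃ n₀ : ℕ, ∀ n ≥ n₀, 2 * (((3 * ((n : ℝ) + 1) ^ 2) ^ 36 * ((n : ℝ) + 1) ^ 12) * (36 * zp) ^ n) <
      (989 / 1000 : ℝ) ^ n := by
  obtain ⟨h0, h1⟩ := E1_r
  obtain ⟨r, hr⟩ : ∃ r : ℝ, r = 36 * zp / (989 / 1000) := ⟨_, rfl⟩
  rw [← hr] at h0 h1
  have hlim : Tendsto (fun n : ℕ => (n : ℝ) ^ 84 * r ^ n) atTop (nhds 0) :=
    tendsto_pow_const_mul_const_pow_of_abs_lt_one 84 (by rwa [abs_of_pos h0])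
  have hlim2 : Tendsto (fun n : ℕ => ((n + 1 : ℕ) : ℝ) ^ 84 * r ^ (n + 1)) atTop (nhds 0) :=
    hlim.comp (tendsto_add_atTop_nat 1)
  have hc : 0 < r / (2 * 3 ^ 36) := by positivity
  obtain ⟨n₀, hn₀⟩ := eventually_atTop.1 (hlim2.eventually_lt_const hc)
  refine ⟨n₀, fun n hn => ?_⟩
  have h2 := hn₀ n hn
  have h3 : ((n : ℝ) + 1) ^ 84 * r ^ n < 1 / (2 * 3 ^ 36) := by
    rw [pow_succ r n, ← mul_assoc] at h2
    push_cast at h2
    have h4 : r / (2 * 3 ^ 36) = 1 / (2 * 3 ^ 36) * r := by ring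
    rw [h4] at h2
    exact lt_of_mul_lt_mul_right h2 h0.le
  have h5 : (36 * zp) = r * (989 / 1000) := by
    rw [hr]
    ring
  have h6 : 2 * (((3 * ((n : ℝ) + 1) ^ 2) ^ 36 * ((n : ℝ) + 1) ^ 12) * (36 * zp) ^ n) =
      (2 * 3 ^ 36) * (((n : ℝ) + 1) ^ 84 * r ^ n) * (989 / 1000) ^ n := by
    rw [h5, mul_pow r, mul_pow (3 : ℝ), ← pow_mul]
    ring
  rw [h6]
  have h7 : (0 : ℝ) < (989 / 1000) ^ n := by positivity
  have h8 : (2 * 3 ^ 36) * (((n : ℝ) + 1) ^ 84 * r ^ n) < 1 := by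
    rw [lt_div_iff₀ (by positivity)] at h3
    linarith
  calc (2 * 3 ^ 36) * (((n : ℝ) + 1) ^ 84 * r ^ n) * (989 / 1000) ^ n < 1 * (989 / 1000) ^ n :=
        mul_lt_mul_of_pos_right h8 h7
    _ = (989 / 1000) ^ n := one_mul _

end Pool.Agent.Lib.MP_d41719_co
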