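import Pool.Agent.Lib.MP_d41719_co.C6
import Pool.Agent.Lib.MP_d41719_co.D2
import Pool.Agent.Lib.MP_d41719_co.E1

/-!
A permutation with many violations for all states and few realised patterns.
-/

namespace Pool.Agent.Lib.MP_d41719_co

open Finset Nat

private theorem E2_prod {n : ℕ} (s t : Fin n → St) (π : Equiv.Perm (Hf n)) :
    ∏ h, wt (lab s h) (lab t (π h)) = lam ^ viol s t π := by
  unfold wt viol
  rw [Finset.prod_ite, Finset.prod_const_one, one_mul, Finset.prod_const]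

private theorem E2_nonneg {n : ℕ} (s t : Fin n → St) (π : Equiv.Perm (Hf n)) :
    0 ≤ ∏ h, wt (lab s h) (lab t (π h)) := by
  rw [E2_prod]
  unfold lam
  positivity

private theorem E2_low {n : ℕ} (π : Equiv.Perm (Hf n)) (h : ∃ s t : Fin n → St, 1000 * viol s t π ≤ n) :
    (989 / 1000 : ℝ) ^ n ≤ ∑ s : Fin n → St, ∑ t : Fin n → St, ∏ h, wt (lab s h) (lab t (π h)) := by
  obtain ⟨s, t, hst⟩ := h
  have h1 : (989 / 1000 : ℝ) ^ n ≤ ∏ h, wt (lab s h) (lab t (π h)) := by
    rw [E2_prod]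
    unfold lam
    rw [← pow_mul]
    exact pow_le_pow_of_le_one (by norm_num) (by norm_num) hst
  refine h1.trans ?_
  refine le_trans ?_ (Finset.single_le_sum (f := fun s : Fin n → St => ∑ t : Fin n → St,
    ∏ h, wt (lab s h) (lab t (π h))) (fun s _ => Finset.sum_nonneg fun t _ => E2_nonneg s t π)
    (Finset.mem_univ s))
  exact Finset.single_le_sum (f := fun t : Fin n → St => ∏ h, wt (lab s h) (lab t (π h)))
    (fun t _ => E2_nonneg s t π) (Finset.mem_univ t)

/-- PROOF: `K₀ = ∑ k ∈ range (g + 1), 81 ^ k`, `K = 2 * K₀`. (a) The `π` with `rea g π > K`: their number `b₁` satisfies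
`(2 K₀ + 1) * b₁ ≤ ∑ π, rea g π ≤ (3 n) ! * K₀`, so `2 * b₁ < (3 n) !` (`K₀ > 0`). (b) The `π` for which there are `s`, `t` with
`1000 * viol s t π ≤ n`: for these `∏ h, wt (lab s h) (lab t (π h)) = lam ^ viol s t π = (989/1000) ^ (1000 * viol ..) ≥
(989/1000) ^ n`, so their number `b₂` satisfies
`b₂ * (989/1000) ^ n ≤ ∑ s, ∑ t, ∑ π, ∏ h, wt .. ≤ (3 n) ! * (..)` (`first_moment`), and `2 * b₂ < (3 n) !` for large `n`
(`small_eventually`). There are `(3 n) !` permutations of `Hf n`, so there is one which is in neither set. -/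
theorem exists_perm (g : ℕ) : ∃ K n₀ : ℕ, ∀ n ≥ n₀, ∃ π : Equiv.Perm (Hf n),
    (∀ s t : Fin n → St, n < 1000 * viol s t π) ∧ rea g π ≤ K := by
  classical
  obtain ⟨n₁, hn₁⟩ := small_eventually
  obtain ⟨K₀, hK₀⟩ : ∃ K₀, K₀ = ∑ k ∈ range (g + 1), 81 ^ k := ⟨_, rfl⟩
  refine ⟨2 * K₀, max n₁ (max g 1), fun n hn => ?_⟩
  have hnn : n₁ ≤ n := (le_max_left _ _).trans hn
  have hng : g ≤ n := ((le_max_left _ _).trans (le_max_right _ _)).trans hn
  have hn1 : 0 < n := ((le_max_right _ _).trans (le_max_right _ _)).trans hn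
  obtain ⟨M, hM⟩ : ∃ M, M = (3 * n) ! := ⟨_, rfl⟩
  have hM0 : 0 < M := by
    rw [hM]
    exact Nat.factorial_pos _
  have hcard : (univ : Finset (Equiv.Perm (Hf n))).card = M := by
    rw [Finset.card_univ, Fintype.card_perm, hM, Fintype.card_prod, Fintype.card_fin, Fintype.card_fin,
      mul_comm]
  -- the permutations with many realised patterns
  obtain ⟨B₁, hB₁⟩ : ∃ B₁ : Finset (Equiv.Perm (Hf n)), B₁ = univ.filter fun π => 2 * K₀ < rea g π :=
    ⟨_, rfl⟩
  have h1 : 2 * B₁.card < M := by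
    have e1 : B₁.card * (2 * K₀ + 1) ≤ ∑ π : Equiv.Perm (Hf n), rea g π := by
      refine le_trans ?_ (Finset.sum_le_sum_of_subset (f := fun π : Equiv.Perm (Hf n) => rea g π)
        (Finset.subset_univ B₁))
      rw [← smul_eq_mul]
      refine Finset.card_nsmul_le_sum _ _ _ fun π hπ => ?_
      rw [hB₁, Finset.mem_filter] at hπ
      exact hπ.2
    have e2 := sum_rea g n hng
    rw [← hM, ← hK₀] at e2
    have e3 : 2 * B₁.card * (2 * K₀ + 1) < M * (2 * K₀ + 1) := by
      have e4 := e1.trans e2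
      nlinarith
    exact lt_of_mul_lt_mul_right e3 (Nat.zero_le _)
  -- the permutations with few violations
  obtain ⟨B₂, hB₂⟩ : ∃ B₂ : Finset (Equiv.Perm (Hf n)),
    B₂ = univ.filter fun π => ∃ s t : Fin n → St, 1000 * viol s t π ≤ n := ⟨_, rfl⟩
  have h2 : 2 * B₂.card < M := by
    have e1 : (B₂.card : ℝ) * (989 / 1000 : ℝ) ^ n ≤
        ∑ π : Equiv.Perm (Hf n), ∑ s : Fin n → St, ∑ t : Fin n → St,
          ∏ h, wt (lab s h) (lab t (π h)) := by
      refine le_trans ?_ (Finset.sum_le_sum_of_subset_of_nonneg (Finset.subset_univ B₂) fun π _ _ =>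
        Finset.sum_nonneg fun s _ => Finset.sum_nonneg fun t _ => E2_nonneg s t π)
      rw [← nsmul_eq_mul]
      refine Finset.card_nsmul_le_sum _ _ _ fun π hπ => ?_
      rw [hB₂, Finset.mem_filter] at hπ
      exact E2_low π hπ.2
    have e2 : ∑ π : Equiv.Perm (Hf n), ∑ s : Fin n → St, ∑ t : Fin n → St,
          ∏ h, wt (lab s h) (lab t (π h)) =
        ∑ s : Fin n → St, ∑ t : Fin n → St, ∑ π : Equiv.Perm (Hf n),
          ∏ h, wt (lab s h) (lab t (π h)) := by
      rw [Finset.sum_comm]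
      refine Finset.sum_congr rfl fun s _ => ?_
      rw [Finset.sum_comm]
    have e3 := first_moment n hn1
    have e4 := hn₁ n hnn
    rw [e2] at e1
    have e5 := e1.trans e3
    rw [← hM, mul_assoc] at e5
    have hMr : (0 : ℝ) < M := by exact_mod_cast hM0
    have e6 := mul_lt_mul_of_pos_left e4 hMr
    have hq : (0 : ℝ) < (989 / 1000 : ℝ) ^ n := by positivity
    have e7 : (2 * (B₂.card : ℝ)) * (989 / 1000 : ℝ) ^ n < (M : ℝ) * (989 / 1000 : ℝ) ^ n := by
      linarith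
    have e8 : 2 * (B₂.card : ℝ) < (M : ℝ) := lt_of_mul_lt_mul_right e7 hq.le
    exact_mod_cast e8
  have h3 : (B₁ ∪ B₂).card < (univ : Finset (Equiv.Perm (Hf n))).card := by
    have e1 := Finset.card_union_le B₁ B₂
    rw [hcard]
    omega
  obtain ⟨π, -, hπ⟩ := Finset.exists_mem_notMem_of_card_lt_card h3
  rw [Finset.mem_union, not_or] at hπ
  refine ⟨π, fun s t => ?_, ?_⟩
  · by_contra hcon
    refine hπ.2 ?_
    rw [hB₂, Finset.mem_filter]
    exact ⟨Finset.mem_univ _, s, t, not_lt.1 hcon⟩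
  · by_contra hcon
    refine hπ.1 ?_
    rw [hB₁, Finset.mem_filter]
    exact ⟨Finset.mem_univ _, not_le.1 hcon⟩

end Pool.Agent.Lib.MP_d41719_co
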