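import Pool.Agent.Lib.MP_d41719_co.Defs

/-!
The graph of a permutation is subcubic and bipartite.
-/

namespace Pool.Agent.Lib.MP_d41719_co

private theorem F1_adj_lr {n : ℕ} {D : Set (Hf n)} {π : Equiv.Perm (Hf n)} {u v : Fin n} :
    (gr D π).Adj (Sum.inl u) (Sum.inr v) ↔ ∃ i, (u, i) ∉ D ∧ (π (u, i)).1 = v := by
  rw [gr_adj]
  constructor
  · rintro ⟨i, j, h1, h2⟩
    exact ⟨i, h1, by rw [h2]⟩
  · rintro ⟨i, h1, h2⟩
    exact ⟨i, (π (u, i)).2, h1, by rw [← h2]⟩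

private theorem F1_adj_rl {n : ℕ} {D : Set (Hf n)} {π : Equiv.Perm (Hf n)} {u v : Fin n} :
    (gr D π).Adj (Sum.inl u) (Sum.inr v) ↔ ∃ j, π.symm (v, j) ∉ D ∧ (π.symm (v, j)).1 = u := by
  rw [gr_adj]
  constructor
  · rintro ⟨i, j, h1, h2⟩
    have h3 : π.symm (v, j) = (u, i) := by rw [← h2, Equiv.symm_apply_apply]
    exact ⟨j, by rw [h3]; exact h1, by rw [h3]⟩
  · rintro ⟨j, h1, h2⟩
    have h3 : (u, (π.symm (v, j)).2) = π.symm (v, j) := by rw [← h2]
    refine ⟨(π.symm (v, j)).2, j, ?_, ?_⟩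
    · rw [h3]
      exact h1
    · rw [h3, Equiv.apply_symm_apply]

private theorem F1_not_ll {n : ℕ} {D : Set (Hf n)} {π : Equiv.Perm (Hf n)} {u v : Fin n} :
    ¬ (gr D π).Adj (Sum.inl u) (Sum.inl v) := by
  rintro (⟨u', v', hx, hy, h⟩ | ⟨u', v', hx, hy, h⟩)
  · exact absurd hy (by simp)
  · exact absurd hx (by simp)

private theorem F1_not_rr {n : ℕ} {D : Set (Hf n)} {π : Equiv.Perm (Hf n)} {u v : Fin n} :
    ¬ (gr D π).Adj (Sum.inr u) (Sum.inr v) := by
  rintro (⟨u', v', hx, hy, h⟩ | ⟨u', v', hx, hy, h⟩)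
  · exact absurd hx (by simp)
  · exact absurd hy (by simp)

private theorem F1_nb_l {n : ℕ} (D : Set (Hf n)) (π : Equiv.Perm (Hf n)) (u : Fin n) :
    (gr D π).neighborSet (Sum.inl u) ⊆ Set.range fun i : Fin 3 => (Sum.inr (π (u, i)).1 : Fin n ⊕ Fin n) := by
  intro y hy
  rw [SimpleGraph.mem_neighborSet] at hy
  rcases y with v | v
  · exact absurd hy F1_not_ll
  · obtain ⟨i, _, h2⟩ := F1_adj_lr.mp hy
    exact ⟨i, by rw [← h2]⟩

private theorem F1_nb_r {n : ℕ} (D : Set (Hf n)) (π : Equiv.Perm (Hf n)) (v : Fin n) :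
    (gr D π).neighborSet (Sum.inr v) ⊆ Set.range fun j : Fin 3 => (Sum.inl (π.symm (v, j)).1 : Fin n ⊕ Fin n) := by
  intro y hy
  rw [SimpleGraph.mem_neighborSet] at hy
  rcases y with u | u
  · obtain ⟨j, _, h2⟩ := F1_adj_rl.mp hy.symm
    exact ⟨j, by rw [← h2]⟩
  · exact absurd hy F1_not_rr

private theorem F1_range_le {X : Type*} (f : Fin 3 → X) : (Set.range f).ncard ≤ 3 := by
  rw [← Set.image_univ]
  refine (Set.ncard_image_le Set.finite_univ).trans ?_
  rw [Set.ncard_univ, Nat.card_eq_fintype_card, Fintype.card_fin]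

private theorem F1_range_eq {X : Type*} (f : Fin 3 → X) (hf : Function.Injective f) : (Set.range f).ncard = 3 := by
  rw [← Set.image_univ, Set.ncard_image_of_injective _ hf, Set.ncard_univ, Nat.card_eq_fintype_card, Fintype.card_fin]

/-- PROOF: the neighbours of `inl u` are among the `inr (π (u, i)).1`, those of `inr v` among the `inl (π.symm (v, j)).1`. -/
theorem gr_le_three {n : ℕ} (D : Set (Hf n)) (π : Equiv.Perm (Hf n)) (x : Fin n ⊕ Fin n) :
    ((gr D π).neighborSet x).ncard ≤ 3 := by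
  rcases x with u | v
  · exact (Set.ncard_le_ncard (F1_nb_l D π u) (Set.finite_range _)).trans (F1_range_le _)
  · exact (Set.ncard_le_ncard (F1_nb_r D π v) (Set.finite_range _)).trans (F1_range_le _)

/-- PROOF: colour the left vertices `0` and the right vertices `1`. -/
theorem gr_bip {n : ℕ} (D : Set (Hf n)) (π : Equiv.Perm (Hf n)) : (gr D π).IsBipartite := by
  refine ⟨SimpleGraph.Coloring.mk (Sum.elim (fun _ => 0) (fun _ => 1)) ?_⟩
  rintro (u | u) (v | v) h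
  · exact absurd h F1_not_ll
  · simp
  · simp
  · exact absurd h F1_not_rr

/-- A vertex none of whose half-edges is deleted has three different neighbours. -/
theorem good_left {n : ℕ} {D : Set (Hf n)} {π : Equiv.Perm (Hf n)}
    (hD : ∀ h h' : Hf n, h ≠ h' → h.1 = h'.1 → (π h).1 = (π h').1 → h ∈ D) {u : Fin n} (hu : ∀ i, (u, i) ∉ D) :
    (Function.Injective fun i => (π (u, i)).1) ∧ ((gr D π).neighborSet (Sum.inl u)).ncard = 3 ∧
      ∀ v, (gr D π).Adj (Sum.inl u) (Sum.inr v) ↔ ∃ i, (π (u, i)).1 = v := by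
  have hinj : Function.Injective fun i => (π (u, i)).1 := by
    intro i i' h
    by_contra hne
    exact hu i (hD (u, i) (u, i') (fun h' => hne (Prod.mk.inj h').2) rfl h)
  have hadj : ∀ v, (gr D π).Adj (Sum.inl u) (Sum.inr v) ↔ ∃ i, (π (u, i)).1 = v := by
    intro v
    rw [F1_adj_lr]
    exact ⟨fun ⟨i, _, h⟩ => ⟨i, h⟩, fun ⟨i, h⟩ => ⟨i, hu i, h⟩⟩
  refine ⟨hinj, ?_, hadj⟩
  have hset : (gr D π).neighborSet (Sum.inl u) =
      Set.range fun i : Fin 3 => (Sum.inr (π (u, i)).1 : Fin n ⊕ Fin n) := by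
    refine Set.Subset.antisymm (F1_nb_l D π u) ?_
    rintro _ ⟨i, rfl⟩
    exact (hadj _).mpr ⟨i, rfl⟩
  rw [hset]
  exact F1_range_eq _ (fun i i' h => hinj (Sum.inr.inj h))

theorem good_right {n : ℕ} {D : Set (Hf n)} {π : Equiv.Perm (Hf n)}
    (hD : ∀ h h' : Hf n, h ≠ h' → h.1 = h'.1 → (π h).1 = (π h').1 → h ∈ D) {v : Fin n}
    (hv : ∀ j, π.symm (v, j) ∉ D) :
    (Function.Injective fun j => (π.symm (v, j)).1) ∧ ((gr D π).neighborSet (Sum.inr v)).ncard = 3 ∧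
      ∀ u, (gr D π).Adj (Sum.inl u) (Sum.inr v) ↔ ∃ j, (π.symm (v, j)).1 = u := by
  have hinj : Function.Injective fun j => (π.symm (v, j)).1 := by
    intro j j' h
    by_contra hne
    refine hv j (hD (π.symm (v, j)) (π.symm (v, j')) (fun h' => hne ?_) h ?_)
    · exact (Prod.mk.inj (π.symm.injective h')).2
    · rw [Equiv.apply_symm_apply, Equiv.apply_symm_apply]
  have hadj : ∀ u, (gr D π).Adj (Sum.inl u) (Sum.inr v) ↔ ∃ j, (π.symm (v, j)).1 = u := by
    intro u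
    rw [F1_adj_rl]
    exact ⟨fun ⟨j, _, h⟩ => ⟨j, h⟩, fun ⟨j, h⟩ => ⟨j, hv j, h⟩⟩
  refine ⟨hinj, ?_, hadj⟩
  have hset : (gr D π).neighborSet (Sum.inr v) =
      Set.range fun j : Fin 3 => (Sum.inl (π.symm (v, j)).1 : Fin n ⊕ Fin n) := by
    refine Set.Subset.antisymm (F1_nb_r D π v) ?_
    rintro _ ⟨j, rfl⟩
    exact ((hadj _).mpr ⟨j, rfl⟩).symm
  rw [hset]
  exact F1_range_eq _ (fun j j' h => hinj (Sum.inl.inj h))

/-- Double edges are deleted. PROOF: the pattern with `k = 1`, `u 0 = h.1`, `v 0 = (π h).1`, `lft θ (inl 0) = h`,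
`lft θ (inr 0) = h'` (`finRotate 1` is the identity). -/
theorem double_del {n g : ℕ} (hg : 1 ≤ g) (π : Equiv.Perm (Hf n)) (h h' : Hf n) (hne : h ≠ h') (h1 : h.1 = h'.1)
    (h2 : (π h).1 = (π h').1) : h ∈ del g π := by
  have hl : ∀ i : Fin 1 ⊕ Fin 1, lft ((fun _ => h.1, fun _ => (π h).1, Sum.elim (fun _ => h.2) (fun _ => h'.2),
      Sum.elim (fun _ => (π h).2) (fun _ => (π h').2)) : Pat n 1) i = Sum.elim (fun _ => h) (fun _ => h') i := by
    rintro (i | i)
    · rfl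
    · exact Prod.ext h1 rfl
  have hr : ∀ i : Fin 1 ⊕ Fin 1, rgt ((fun _ => h.1, fun _ => (π h).1, Sum.elim (fun _ => h.2) (fun _ => h'.2),
      Sum.elim (fun _ => (π h).2) (fun _ => (π h').2)) : Pat n 1) i =
        Sum.elim (fun _ => π h) (fun _ => π h') i := by
    rintro (i | i)
    · rfl
    · exact Prod.ext h2 rfl
  refine ⟨1, hg, (fun _ => h.1, fun _ => (π h).1, Sum.elim (fun _ => h.2) (fun _ => h'.2),
      Sum.elim (fun _ => (π h).2) (fun _ => (π h').2)), ⟨?_, ?_⟩, Sum.inl 0, ?_⟩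
  · intro i j hij
    rw [hl, hl] at hij
    rcases i with i | i <;> rcases j with j | j
    · rw [Subsingleton.elim i j]
    · exact absurd hij hne
    · exact absurd hij.symm hne
    · rw [Subsingleton.elim i j]
  · intro i
    rw [hl, hr]
    rcases i with i | i <;> rfl
  · rw [hl]
    rfl

end Pool.Agent.Lib.MP_d41719_co
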