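import Pool.Agent.Lib.MP_d41719_co.Defs

/-!
Cycles of the graph as closed sequences.
-/

namespace Pool.Agent.Lib.MP_d41719_co

private theorem F2_side {n : ℕ} {D : Set (Hf n)} {π : Equiv.Perm (Hf n)} {x y : Fin n ⊕ Fin n}
    (h : (gr D π).Adj x y) : y.isLeft = !x.isLeft := by
  rcases h with ⟨u, v, hx, hy, -⟩ | ⟨u, v, hx, hy, -⟩
  · rw [hx, hy]
    rfl
  · rw [hx, hy]
    rfl

private theorem F2_inj {V : Type*} {G : SimpleGraph V} {x : V} (w : G.Walk x x) (hw : w.IsCycle)
    {a b : ℕ} (ha : a < w.length) (hb : b < w.length) (h : w.getVert a = w.getVert b) : a = b := by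
  have h3 := hw.three_le_length
  exact hw.getVert_injOn' (show a ≤ w.length - 1 by omega) (show b ≤ w.length - 1 by omega) h

/-- PROOF: Let `L = w.length ≥ 3` and `p i = w.getVert (i % L)` for `i : ℕ`: a function with period `L`, `p i` adjacent to
`p (i + 1)` (also for `i = L - 1`, since `w.getVert L = x = w.getVert 0`), injective on `0, ..., L - 1`
(`SimpleGraph.Walk.IsCycle.getVert_injOn` or `IsCycle`-lemmas: the support without the first vertex has no duplicates).
The sides (left, right) alternate, so `L = 2 k` is even, `2 ≤ k`. If `p 0` is a left vertex let `p' = p`, otherwise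
`p' i = p (i + 1)`; then `p' (2 j) = inl (u j)`, `p' (2 j + 1) = inr (v j)` for `j < k`, and `p' (2 j + 2) = inl (u (j + 1))`
where `j + 1` is `finRotate k j` by the periodicity. `gr_adj`. -/
theorem cyc_seq {n : ℕ} (D : Set (Hf n)) (π : Equiv.Perm (Hf n)) {x : Fin n ⊕ Fin n} (w : (gr D π).Walk x x)
    (hw : w.IsCycle) : ∃ k, w.length = 2 * k ∧ 2 ≤ k ∧ ∃ u v : Fin k → Fin n, Function.Injective u ∧
      Function.Injective v ∧ (∀ j, Ed D π (u j) (v j)) ∧ ∀ j, Ed D π (u (finRotate k j)) (v j) := by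
  have h3 := hw.three_le_length
  have hL0 : 0 < w.length := by omega
  obtain ⟨p, hp⟩ : ∃ p : ℕ → Fin n ⊕ Fin n, p = fun i => w.getVert (i % w.length) := ⟨_, rfl⟩
  have hadj : ∀ i, (gr D π).Adj (p i) (p (i + 1)) := by
    intro i
    have hr : i % w.length < w.length := Nat.mod_lt _ hL0
    have h1 := w.adj_getVert_succ hr
    have h2 : p (i + 1) = w.getVert (i % w.length + 1) := by
      rw [hp]
      simp only
      rcases Nat.lt_or_ge (i % w.length + 1) w.length with h4 | h4
      · rw [Nat.add_mod, Nat.mod_eq_of_lt (show 1 < w.length by omega), Nat.mod_eq_of_lt h4]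
      · have h5 : i % w.length + 1 = w.length := by omega
        rw [Nat.add_mod, Nat.mod_eq_of_lt (show 1 < w.length by omega), h5, Nat.mod_self, w.getVert_zero,
          w.getVert_length]
    rw [h2, hp]
    exact h1
  have hper : ∀ a b, a % w.length = b % w.length → p a = p b := by
    intro a b hab
    rw [hp]
    simp only
    rw [hab]
  have hinj : ∀ a b, p a = p b → a % w.length = b % w.length := by
    intro a b hab
    rw [hp] at hab
    exact F2_inj w hw (Nat.mod_lt _ hL0) (Nat.mod_lt _ hL0) hab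
  have hside : ∀ i, (p (i + 1)).isLeft = !(p i).isLeft := fun i => F2_side (hadj i)
  have hside2 : ∀ i m, (p (i + 2 * m)).isLeft = (p i).isLeft := by
    intro i m
    induction m with
    | zero => rfl
    | succ m ih =>
      have h1 := hside (i + 2 * m)
      have h2 := hside (i + 2 * m + 1)
      have h4 : i + 2 * (m + 1) = i + 2 * m + 1 + 1 := by ring
      rw [h4, h2, h1, Bool.not_not, ih]
  obtain ⟨k, hk⟩ : ∃ k, w.length = 2 * k := by
    rcases Nat.even_or_odd' w.length with ⟨c, hc | hc⟩
    · exact ⟨c, hc⟩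
    · exfalso
      have h1 := hside (0 + 2 * c)
      rw [hside2, Nat.zero_add, ← hc] at h1
      have h2 : p w.length = p 0 := hper _ _ (by rw [Nat.mod_self, Nat.zero_mod])
      rw [h2] at h1
      exact absurd h1.symm (Bool.not_ne_self _)
  have hk2 : 2 ≤ k := by omega
  obtain ⟨s, hs⟩ : ∃ s : ℕ, (p s).isLeft = true := by
    cases h : (p 0).isLeft
    · refine ⟨0 + 1, ?_⟩
      rw [hside, h]
      rfl
    · exact ⟨0, h⟩
  have hU : ∀ j, ∃ a : Fin n, p (s + 2 * j) = Sum.inl a := by
    intro j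
    have h1 := hside2 s j
    rw [hs] at h1
    exact Sum.isLeft_iff.1 h1
  have hV : ∀ j, ∃ b : Fin n, p (s + 2 * j + 1) = Sum.inr b := by
    intro j
    have h1 := hside (s + 2 * j)
    rw [hside2, hs] at h1
    have h2 : (p (s + 2 * j + 1)).isLeft = false := h1
    rw [Sum.isLeft_eq_false] at h2
    exact Sum.isRight_iff.1 h2
  choose U hU using hU
  choose V hV using hV
  have hEd1 : ∀ j, Ed D π (U j) (V j) := by
    intro j
    have h1 := hadj (s + 2 * j)
    rw [hU, hV] at h1
    exact gr_adj.1 h1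
  have hEd2 : ∀ j, Ed D π (U (j + 1)) (V j) := by
    intro j
    have h1 := hadj (s + 2 * j + 1)
    have h2 : s + 2 * j + 1 + 1 = s + 2 * (j + 1) := by ring
    rw [h2, hU, hV] at h1
    exact gr_adj.1 h1.symm
  have hcan : ∀ c i j : ℕ, i < k → j < k → (c + 2 * i) % w.length = (c + 2 * j) % w.length → i = j := by
    intro c i j hi hj h
    have h1 : 2 * i ≡ 2 * j [MOD 2 * k] := by
      rw [hk] at h
      exact Nat.ModEq.add_left_cancel' c h
    have h2 := h1.eq_of_lt_of_lt (by omega) (by omega)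
    omega
  refine ⟨k, hk, hk2, fun j => U j, fun j => V j, ?_, ?_, fun j => hEd1 j, ?_⟩
  · intro i j hij
    simp only at hij
    have h1 : p (s + 2 * (i : ℕ)) = p (s + 2 * (j : ℕ)) := by rw [hU, hU, hij]
    exact Fin.ext (hcan s i j i.2 j.2 (hinj _ _ h1))
  · intro i j hij
    simp only at hij
    have h1 : p (s + 2 * (i : ℕ) + 1) = p (s + 2 * (j : ℕ) + 1) := by rw [hV, hV, hij]
    have h2 := hinj _ _ h1
    have e1 : s + 2 * (i : ℕ) + 1 = s + 1 + 2 * (i : ℕ) := by ring
    have e2 : s + 2 * (j : ℕ) + 1 = s + 1 + 2 * (j : ℕ) := by ring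
    rw [e1, e2] at h2
    exact Fin.ext (hcan (s + 1) i j i.2 j.2 h2)
  · intro j
    simp only
    obtain ⟨m, rfl⟩ : ∃ m, k = m + 1 := ⟨k - 1, by omega⟩
    have h1 := hEd2 j
    rw [coe_finRotate]
    split_ifs with h2
    · have h4 : U ((j : ℕ) + 1) = U 0 := by
        have h5 : (j : ℕ) + 1 = m + 1 := by rw [h2, Fin.val_last]
        have h6 : p (s + 2 * (m + 1)) = p (s + 2 * 0) := by
          apply hper
          rw [hk, Nat.add_mod_right]
          rfl
        rw [hU, hU] at h6
        rw [h5]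
        exact Sum.inl_injective h6
      rw [h4] at h1
      exact h1
    · exact h1

end Pool.Agent.Lib.MP_d41719_co
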