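import Pool.Agent.Lib.MP_d41719_co.F2

/-!
The girth.
-/

namespace Pool.Agent.Lib.MP_d41719_co

private theorem F3_rot {k : ℕ} (hk : 2 ≤ k) (j : Fin k) : finRotate k j ≠ j := by
  obtain ⟨m, rfl⟩ : ∃ m, k = m + 2 := ⟨k - 2, by omega⟩
  intro h
  rw [finRotate_apply] at h
  have h2 : (1 : Fin (m + 2)) = 0 := by
    have h3 : j + 1 = j + 0 := by rw [h, add_zero]
    exact add_left_cancel h3
  exact absurd h2 (by simp)

/-- PROOF: choose for every `j` half-edges `(u j, i) ∉ D`, `π (u j, i) = (v j, i')` (from `Ed D π (u j) (v j)`) and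
`(u (finRotate k j), l) ∉ D`, `π (u (finRotate k j), l) = (v j, l')`: they give `θ : Pat n k` with `π (lft θ i) = rgt θ i` and
`lft θ i ∉ D` for all `i`. `lft θ` is injective: `inl j`, `inl j'` have different vertices `u j`, `u j'`; `inr`, `inr` similarly
(`finRotate k` is injective); if `lft θ (inl j) = lft θ (inr j')` then the images under `π` are equal, `v j = v j'`,
`j = j'` and `u j = u (finRotate k j)`, `finRotate k j = j`, impossible for `k ≥ 2`. -/
theorem seq_pattern {n k : ℕ} (D : Set (Hf n)) (π : Equiv.Perm (Hf n)) (hk : 2 ≤ k) (u v : Fin k → Fin n)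
    (hu : Function.Injective u) (hv : Function.Injective v) (h1 : ∀ j, Ed D π (u j) (v j))
    (h2 : ∀ j, Ed D π (u (finRotate k j)) (v j)) : ∃ θ : Pat n k, Rea π θ ∧ ∀ i, lft θ i ∉ D := by
  choose a a' ha using h1
  choose l l' hl using h2
  let θ : Pat n k := (u, v, Sum.elim a l, Sum.elim a' l')
  have e1 : ∀ j, lft θ (Sum.inl j) = (u j, a j) := fun _ => rfl
  have e2 : ∀ j, lft θ (Sum.inr j) = (u (finRotate k j), l j) := fun _ => rfl
  have f1 : ∀ j, rgt θ (Sum.inl j) = (v j, a' j) := fun _ => rfl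
  have f2 : ∀ j, rgt θ (Sum.inr j) = (v j, l' j) := fun _ => rfl
  have hπ : ∀ i, π (lft θ i) = rgt θ i := by
    rintro (j | j)
    · rw [e1, f1]
      exact (ha j).2
    · rw [e2, f2]
      exact (hl j).2
  have hD : ∀ i, lft θ i ∉ D := by
    rintro (j | j)
    · rw [e1]
      exact (ha j).1
    · rw [e2]
      exact (hl j).1
  have hmix : ∀ j j', lft θ (Sum.inl j) ≠ lft θ (Sum.inr j') := by
    intro j j' h
    have h3 : rgt θ (Sum.inl j) = rgt θ (Sum.inr j') := by rw [← hπ, ← hπ, h]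
    rw [f1, f2] at h3
    have h4 : j = j' := hv (congrArg Prod.fst h3)
    rw [e1, e2] at h
    have h5 : j = finRotate k j' := hu (congrArg Prod.fst h)
    rw [← h4] at h5
    exact F3_rot hk j h5.symm
  refine ⟨θ, ⟨?_, hπ⟩, hD⟩
  rintro (j | j) (j' | j') h
  · rw [e1, e1] at h
    rw [hu (congrArg Prod.fst h)]
  · exact absurd h (hmix j j')
  · exact absurd h.symm (hmix j' j)
  · rw [e2, e2] at h
    rw [(finRotate k).injective (hu (congrArg Prod.fst h))]

/-- PROOF: `SimpleGraph.le_egirth`. A cycle of length less than `g` has the length `2 k` with `k ≤ g` by `cyc_seq`, and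
`seq_pattern` with `D = del g π` contradicts the definition of `del`. -/
theorem gr_girth {n : ℕ} (g : ℕ) (π : Equiv.Perm (Hf n)) : (g : ℕ∞) ≤ (gr (del g π) π).egirth := by
  rw [SimpleGraph.le_egirth]
  intro x w hw
  obtain ⟨k, hk, hk2, u, v, hu, hv, h1, h2⟩ := cyc_seq (del g π) π w hw
  by_contra hlt
  push Not at hlt
  have hlt' : w.length < g := by exact_mod_cast hlt
  obtain ⟨θ, hθ, hD⟩ := seq_pattern (del g π) π hk2 u v hu hv h1 h2
  have i0 : Fin k := ⟨0, by omega⟩
  exact hD (Sum.inl i0) ⟨k, by omega, θ, hθ, Sum.inl i0, rfl⟩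

end Pool.Agent.Lib.MP_d41719_co
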