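import Pool.Agent.Lib.MP_d41719_co.SDefs

/-!
Adjacent edges and edges joined by an edge in a packing edge-colouring.
-/

namespace Pool.Agent.Lib.MP_d41719_co

/-- PROOF: the two edges are different and adjacent in the line graph, so their distance is `1`; if the colours are equal
then `2 ≤ sq (c e) + 1 ≤ edist ≤ 1`. -/
theorem pack_adj {V : Type} {G : SimpleGraph V} {c : G.edgeSet → Fin 5} (hc : IsPacking G sq c) {x y z : V}
    (h1 : G.Adj x y) (h2 : G.Adj x z) (hyz : y ≠ z) : c ⟨s(x, y), h1⟩ ≠ c ⟨s(x, z), h2⟩ := by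
  intro hcc
  have hne : (⟨s(x, y), h1⟩ : G.edgeSet) ≠ ⟨s(x, z), h2⟩ := by
    intro h
    exact hyz (Sym2.congr_right.1 (congrArg Subtype.val h))
  have hadj : G.lineGraph.Adj ⟨s(x, y), h1⟩ ⟨s(x, z), h2⟩ :=
    SimpleGraph.lineGraph_adj_iff_exists.2 ⟨hne, x, Sym2.mem_mk_left _ _, Sym2.mem_mk_left _ _⟩
  have h3 := hc _ _ hne hcc
  have h4 : G.lineGraph.edist ⟨s(x, y), h1⟩ ⟨s(x, z), h2⟩ ≤ ((1 : ℕ) : ℕ∞) := by
    simpa using hadj.toWalk.edist_le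
  have h5 : sq (c ⟨s(x, y), h1⟩) + 1 ≤ 1 := by exact_mod_cast h3.trans h4
  have h6 : ∀ i : Fin 5, 1 ≤ sq i := by decide
  have h7 := h6 (c ⟨s(x, y), h1⟩)
  omega

/-- PROOF: the edges `x z` and `y w` are different, and both are adjacent to `x y` in the line graph: `edist ≤ 2`. If the
colour is not `0` then `sq = 2` and `3 ≤ edist`. -/
theorem pack_two {V : Type} {G : SimpleGraph V} {c : G.edgeSet → Fin 5} (hc : IsPacking G sq c) {x y z w : V}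
    (h : G.Adj x y) (h1 : G.Adj x z) (h2 : G.Adj y w) (hz : z ≠ y) (hw : w ≠ x)
    (he : c ⟨s(x, z), h1⟩ = c ⟨s(y, w), h2⟩) : c ⟨s(x, z), h1⟩ = 0 := by
  have hxy : x ≠ y := h.ne
  have hne : (⟨s(x, z), h1⟩ : G.edgeSet) ≠ ⟨s(y, w), h2⟩ := by
    intro h'
    have h3 : s(x, z) = s(y, w) := congrArg Subtype.val h'
    rcases Sym2.eq_iff.1 h3 with ⟨a, -⟩ | ⟨a, -⟩
    · exact hxy a
    · exact hw a.symm
  have hne1 : (⟨s(x, z), h1⟩ : G.edgeSet) ≠ ⟨s(x, y), h⟩ := by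
    intro h'
    exact hz (Sym2.congr_right.1 (congrArg Subtype.val h'))
  have hne2 : (⟨s(x, y), h⟩ : G.edgeSet) ≠ ⟨s(y, w), h2⟩ := by
    intro h'
    have h3 : s(x, y) = s(y, w) := congrArg Subtype.val h'
    rcases Sym2.eq_iff.1 h3 with ⟨a, -⟩ | ⟨a, -⟩
    · exact hxy a
    · exact hw a.symm
  have ha1 : G.lineGraph.Adj ⟨s(x, z), h1⟩ ⟨s(x, y), h⟩ :=
    SimpleGraph.lineGraph_adj_iff_exists.2 ⟨hne1, x, Sym2.mem_mk_left _ _, Sym2.mem_mk_left _ _⟩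
  have ha2 : G.lineGraph.Adj ⟨s(x, y), h⟩ ⟨s(y, w), h2⟩ :=
    SimpleGraph.lineGraph_adj_iff_exists.2 ⟨hne2, y, Sym2.mem_mk_right _ _, Sym2.mem_mk_left _ _⟩
  have h3 := hc _ _ hne he
  have h4 : G.lineGraph.edist ⟨s(x, z), h1⟩ ⟨s(y, w), h2⟩ ≤ ((2 : ℕ) : ℕ∞) := by
    have h5 := (SimpleGraph.Walk.cons ha1 (SimpleGraph.Walk.cons ha2 SimpleGraph.Walk.nil)).edist_le
    simpa using h5
  have h5 : sq (c ⟨s(x, z), h1⟩) + 1 ≤ 2 := by exact_mod_cast h3.trans h4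
  have h6 : ∀ i : Fin 5, sq i + 1 ≤ 2 → i = 0 := by decide
  exact h6 _ h5

end Pool.Agent.Lib.MP_d41719_co
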