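import Pool.Agent.Lib.MP_d41719_co.Defs

/-!
The state of a covered vertex.
-/

namespace Pool.Agent.Lib.MP_d41719_co

private theorem F5_fin : ∀ a b c : Fin 5, a ≠ b → a ≠ c → b ≠ c → (a = 0 ∨ b = 0 ∨ c = 0) →
    ∃ T : Fin 6, ∃ i j k : Fin 3, i ≠ j ∧ i ≠ k ∧ j ≠ k ∧ base T i = a ∧ base T j = b ∧ base T k = c := by
  decide

private theorem F5_perm (i j k : Fin 3) (h1 : i ≠ j) (h2 : i ≠ k) (h3 : j ≠ k) :
    Function.Injective ![i, j, k] := by
  intro x y h
  fin_cases x <;> fin_cases y <;> first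
    | rfl
    | exact absurd h h1
    | exact absurd h h2
    | exact absurd h h3
    | exact absurd h h1.symm
    | exact absurd h h2.symm
    | exact absurd h h3.symm

/-- Three different colours, one of them `0`, are the colours of a state. PROOF: finitely many cases (`decide`, or a case
distinction on the position of `0` and the values). -/
theorem exists_state (f : Fin 3 → Fin 5) (hf : Function.Injective f) (h0 : ∃ i, f i = 0) :
    ∃ s : St, ∀ i, base s.1 (s.2 i) = f i := by
  have h01 : f 0 ≠ f 1 := fun h => absurd (hf h) (by decide)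
  have h02 : f 0 ≠ f 2 := fun h => absurd (hf h) (by decide)
  have h12 : f 1 ≠ f 2 := fun h => absurd (hf h) (by decide)
  have h3 : f 0 = 0 ∨ f 1 = 0 ∨ f 2 = 0 := by
    obtain ⟨i, hi⟩ := h0
    fin_cases i
    · exact Or.inl hi
    · exact Or.inr (Or.inl hi)
    · exact Or.inr (Or.inr hi)
  obtain ⟨T, i, j, k, hij, hik, hjk, e0, e1, e2⟩ := F5_fin (f 0) (f 1) (f 2) h01 h02 h12 h3
  refine ⟨(T, Equiv.ofBijective ![i, j, k]
    ((F5_perm i j k hij hik hjk).bijective_of_finite)), fun x => ?_⟩
  fin_cases x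
  · exact e0
  · exact e1
  · exact e2

end Pool.Agent.Lib.MP_d41719_co
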