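import Pool.Agent.Lib.MP_d41719_co.F1
import Pool.Agent.Lib.MP_d41719_co.F4
import Pool.Agent.Lib.MP_d41719_co.F5

/-!
A packing edge-colouring gives states of the vertices with few violations.
-/

namespace Pool.Agent.Lib.MP_d41719_co

open Finset

private theorem F6_left_nbr {n : ℕ} {D : Set (Hf n)} {π : Equiv.Perm (Hf n)} {u : Fin n} {y : Fin n ⊕ Fin n}
    (h : (gr D π).Adj (Sum.inl u) y) : ∃ v, y = Sum.inr v := by
  rcases h with ⟨u', v', _, hy, _⟩ | ⟨u', v', hx, _, _⟩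
  · exact ⟨v', hy⟩
  · exact absurd hx (by simp)

private theorem F6_right_nbr {n : ℕ} {D : Set (Hf n)} {π : Equiv.Perm (Hf n)} {v : Fin n} {y : Fin n ⊕ Fin n}
    (h : (gr D π).Adj (Sum.inr v) y) : ∃ u, y = Sum.inl u := by
  rcases h with ⟨u', v', hx, _, _⟩ | ⟨u', v', _, hy, _⟩
  · exact absurd hx (by simp)
  · exact ⟨u', hy⟩

/-- A vertex of degree three which is not missed has an edge of the colour `0`. -/
private theorem F6_not_missed {V : Type} {G : SimpleGraph V} {c : G.edgeSet → Fin 5} {x : V}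
    (h3 : (G.neighborSet x).ncard = 3) (hm : x ∉ Missed G c) :
    ∃ (y : V) (h : G.Adj x y), c ⟨s(x, y), h⟩ = 0 := by
  by_contra hcon
  refine hm ⟨h3, ?_⟩
  rintro ⟨e, he⟩ hxe h0
  obtain ⟨y, rfl⟩ := Sym2.mem_iff_exists.1 hxe
  exact hcon ⟨y, he, h0⟩

/-- The state of a left vertex without deleted half-edges which is not missed. PROOF: `f i` = the colour of the edge from
`u` to `(π (u, i)).1` (`good_left`). It is injective by `pack_adj`, and `0` is a value because `inl u` has degree three and is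
not in `Missed`: there is an edge at `inl u` with the colour `0`. `exists_state`. -/
theorem state_left {n : ℕ} {D : Set (Hf n)} {π : Equiv.Perm (Hf n)}
    (hD : ∀ h h' : Hf n, h ≠ h' → h.1 = h'.1 → (π h).1 = (π h').1 → h ∈ D) {c : (gr D π).edgeSet → Fin 5}
    (hc : IsPacking (gr D π) sq c) {u : Fin n} (hu : ∀ i, (u, i) ∉ D) (hm : Sum.inl u ∉ Missed (gr D π) c) :
    ∃ s : St, ∀ i, ∀ h : (gr D π).Adj (Sum.inl u) (Sum.inr (π (u, i)).1), base s.1 (s.2 i) = c ⟨s(_, _), h⟩ := by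
  obtain ⟨hinj, h3, hadj⟩ := good_left hD hu
  have ha : ∀ i, (gr D π).Adj (Sum.inl u) (Sum.inr (π (u, i)).1) := fun i => (hadj _).2 ⟨i, rfl⟩
  obtain ⟨s, hs⟩ := exists_state (fun i => c ⟨s(Sum.inl u, Sum.inr (π (u, i)).1), ha i⟩)
    (fun i j hij => by
      by_contra hne
      exact pack_adj hc (ha i) (ha j) (fun h => hne (hinj (Sum.inr.inj h))) hij)
    (by
      obtain ⟨y, hy, h0⟩ := F6_not_missed h3 hm
      obtain ⟨v, rfl⟩ := F6_left_nbr hy
      obtain ⟨i, rfl⟩ := (hadj v).1 hy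
      exact ⟨i, h0⟩)
  exact ⟨s, fun i h => hs i⟩

/-- The same for a right vertex. -/
theorem state_right {n : ℕ} {D : Set (Hf n)} {π : Equiv.Perm (Hf n)}
    (hD : ∀ h h' : Hf n, h ≠ h' → h.1 = h'.1 → (π h).1 = (π h').1 → h ∈ D) {c : (gr D π).edgeSet → Fin 5}
    (hc : IsPacking (gr D π) sq c) {v : Fin n} (hv : ∀ j, π.symm (v, j) ∉ D)
    (hm : Sum.inr v ∉ Missed (gr D π) c) :
    ∃ s : St, ∀ j, ∀ h : (gr D π).Adj (Sum.inl (π.symm (v, j)).1) (Sum.inr v),
      base s.1 (s.2 j) = c ⟨s(_, _), h⟩ := by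
  obtain ⟨hinj, h3, hadj⟩ := good_right hD hv
  have ha : ∀ j, (gr D π).Adj (Sum.inl (π.symm (v, j)).1) (Sum.inr v) := fun j => (hadj _).2 ⟨j, rfl⟩
  have hsw : ∀ (x y : Fin n ⊕ Fin n) (h : (gr D π).Adj x y) (h' : (gr D π).Adj y x),
      c ⟨s(x, y), h⟩ = c ⟨s(y, x), h'⟩ := fun x y h h' => congrArg c (Subtype.ext Sym2.eq_swap)
  obtain ⟨s, hs⟩ := exists_state (fun j => c ⟨s(Sum.inl (π.symm (v, j)).1, Sum.inr v), ha j⟩)
    (fun i j hij => by
      by_contra hne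
      refine pack_adj hc (ha i).symm (ha j).symm (fun h => hne (hinj (Sum.inl.inj h))) ?_
      exact ((hsw _ _ _ (ha i)).trans hij).trans (hsw _ _ (ha j) _))
    (by
      obtain ⟨y, hy, h0⟩ := F6_not_missed h3 hm
      obtain ⟨u, rfl⟩ := F6_right_nbr hy
      obtain ⟨j, rfl⟩ := (hadj u).1 hy.symm
      exact ⟨j, (hsw _ _ _ hy).trans h0⟩)
  exact ⟨s, fun j h => hs j⟩

end Pool.Agent.Lib.MP_d41719_co
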