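import Pool.Agent.Lib.MP_d41719_co.F6

/-!
The number of the violations.
-/

namespace Pool.Agent.Lib.MP_d41719_co

open Finset

private theorem F7_congr {V : Type} {G : SimpleGraph V} (c : G.edgeSet → Fin 5) {x y x' y' : V} (h : G.Adj x y)
    (h' : G.Adj x' y') (hx : x = x') (hy : y = y') : c ⟨s(x, y), h⟩ = c ⟨s(x', y'), h'⟩ := by
  subst hx
  subst hy
  rfl

private theorem F7_swap {V : Type} {G : SimpleGraph V} (c : G.edgeSet → Fin 5) {x y : V} (h : G.Adj x y) :
    c ⟨s(x, y), h⟩ = c ⟨s(y, x), h.symm⟩ :=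
  congrArg c (Subtype.ext Sym2.eq_swap)

private theorem F7_cmp {n : ℕ} {D : Set (Hf n)} {π : Equiv.Perm (Hf n)}
    (hD : ∀ h h' : Hf n, h ≠ h' → h.1 = h'.1 → (π h).1 = (π h').1 → h ∈ D) {c : (gr D π).edgeSet → Fin 5}
    (hc : IsPacking (gr D π) sq c) (h : Hf n) (hu : ∀ i, (h.1, i) ∉ D) (hv : ∀ j, π.symm ((π h).1, j) ∉ D)
    (s t : St)
    (hs : ∀ i, ∀ e : (gr D π).Adj (Sum.inl h.1) (Sum.inr (π (h.1, i)).1), base s.1 (s.2 i) = c ⟨s(_, _), e⟩)
    (ht : ∀ j, ∀ e : (gr D π).Adj (Sum.inl (π.symm ((π h).1, j)).1) (Sum.inr (π h).1),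
      base t.1 (t.2 j) = c ⟨s(_, _), e⟩) :
    Cmp (s.1, s.2 h.2) (t.1, t.2 (π h).2) := by
  have hπ : π.symm ((π h).1, (π h).2) = h := π.symm_apply_apply h
  have hl := good_left hD hu
  have hr := good_right hD hv
  have e0 : (gr D π).Adj (Sum.inl h.1) (Sum.inr (π h).1) := (hl.2.2 _).2 ⟨h.2, rfl⟩
  constructor
  · have e2 : (gr D π).Adj (Sum.inl (π.symm ((π h).1, (π h).2)).1) (Sum.inr (π h).1) := by
      rw [hπ]
      exact e0
    have h1 := hs h.2 e0
    have h2 := ht (π h).2 e2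
    show base s.1 (s.2 h.2) = base t.1 (t.2 (π h).2)
    rw [h1, h2]
    exact F7_congr c _ _ (by rw [hπ]) rfl
  · intro i hi j hj hij
    obtain ⟨i', rfl⟩ := s.2.surjective i
    obtain ⟨j', rfl⟩ := t.2.surjective j
    have hi' : i' ≠ h.2 := fun h1 => hi (by rw [h1])
    have hj' : j' ≠ (π h).2 := fun h1 => hj (by rw [h1])
    have e1 : (gr D π).Adj (Sum.inl h.1) (Sum.inr (π (h.1, i')).1) := (hl.2.2 _).2 ⟨i', rfl⟩
    have e2 : (gr D π).Adj (Sum.inl (π.symm ((π h).1, j')).1) (Sum.inr (π h).1) := (hr.2.2 _).2 ⟨j', rfl⟩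
    have hz : (Sum.inr (π (h.1, i')).1 : Fin n ⊕ Fin n) ≠ Sum.inr (π h).1 := by
      intro h1
      exact hi' (hl.1 (Sum.inr.inj h1))
    have hw : (Sum.inl (π.symm ((π h).1, j')).1 : Fin n ⊕ Fin n) ≠ Sum.inl h.1 := by
      intro h1
      apply hj'
      apply hr.1
      show (π.symm ((π h).1, j')).1 = (π.symm ((π h).1, (π h).2)).1
      rw [hπ]
      exact Sum.inl.inj h1
    have h1 := hs i' e1
    have h2 := ht j' e2
    show base s.1 (s.2 i') = 0
    have hij' : base s.1 (s.2 i') = base t.1 (t.2 j') := hij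
    rw [h1]
    apply pack_two hc e0 e1 e2.symm hz hw
    rw [← h1, hij', h2]
    exact F7_swap c e2

private theorem F7_state {n : ℕ} {D : Set (Hf n)} {π : Equiv.Perm (Hf n)}
    (hD : ∀ h h' : Hf n, h ≠ h' → h.1 = h'.1 → (π h).1 = (π h').1 → h ∈ D) {c : (gr D π).edgeSet → Fin 5}
    (hc : IsPacking (gr D π) sq c) :
    ∃ s t : Fin n → St, ∀ h : Hf n, ¬ Cmp (lab s h) (lab t (π h)) →
      ((∃ i, (h.1, i) ∈ D) ∨ Sum.inl h.1 ∈ Missed (gr D π) c) ∨
      ((∃ j, π.symm ((π h).1, j) ∈ D) ∨ Sum.inr (π h).1 ∈ Missed (gr D π) c) := by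
  have h1 : ∀ u : Fin n, ∃ s : St, ¬ ((∃ i, (u, i) ∈ D) ∨ Sum.inl u ∈ Missed (gr D π) c) →
      ∀ i, ∀ h : (gr D π).Adj (Sum.inl u) (Sum.inr (π (u, i)).1), base s.1 (s.2 i) = c ⟨s(_, _), h⟩ := by
    intro u
    by_cases hu : (∃ i, (u, i) ∈ D) ∨ Sum.inl u ∈ Missed (gr D π) c
    · exact ⟨(0, 1), fun h => absurd hu h⟩
    · rw [not_or, not_exists] at hu
      obtain ⟨s, hs⟩ := state_left hD hc hu.1 hu.2
      exact ⟨s, fun _ => hs⟩
  have h2 : ∀ v : Fin n, ∃ t : St, ¬ ((∃ j, π.symm (v, j) ∈ D) ∨ Sum.inr v ∈ Missed (gr D π) c) →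
      ∀ j, ∀ h : (gr D π).Adj (Sum.inl (π.symm (v, j)).1) (Sum.inr v), base t.1 (t.2 j) = c ⟨s(_, _), h⟩ := by
    intro v
    by_cases hv : (∃ j, π.symm (v, j) ∈ D) ∨ Sum.inr v ∈ Missed (gr D π) c
    · exact ⟨(0, 1), fun h => absurd hv h⟩
    · rw [not_or, not_exists] at hv
      obtain ⟨t, ht⟩ := state_right hD hc hv.1 hv.2
      exact ⟨t, fun _ => ht⟩
  choose s hs using h1
  choose t ht using h2
  refine ⟨s, t, fun h hh => ?_⟩
  by_contra hcon
  rw [not_or] at hcon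
  apply hh
  have hu := hcon.1
  have hv := hcon.2
  rw [not_or, not_exists] at hu hv
  exact F7_cmp hD hc h hu.1 hv.1 (s h.1) (t (π h).1) (hs h.1 hcon.1) (ht (π h).1 hcon.2)

/-- PROOF: Let `BL` be the set of the `u` with a half-edge `(u, i) ∈ D` or `inl u ∈ Missed`, `BR` the set of the `v` with
`π.symm (v, j) ∈ D` for some `j` or `inr v ∈ Missed`. `s u` is the state from `state_left` for `u ∉ BL` and arbitrary
otherwise, `t v` similarly. If `h = (u, i)`, `π h = (v, j)`, `u ∉ BL`, `v ∉ BR` then `Cmp (lab s h) (lab t (π h))`: both colours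
are the colour of the edge `u v` (`h ∉ D`); if `i' ≠ i`, `j' ≠ j` (every index of a label of `u` other than `(s u).2 i` is
`(s u).2 i'` with `i' ≠ i`) and the colours of the edges from `u` to `(π (u, i')).1` and from `(π.symm (v, j')).1` to `v` are
equal then they are `0` by `pack_two` (with `x = inl u`, `y = inr v`; the other ends are not `v`, `u` by `good_left`,
`good_right`). So the violations are among the `h` with `h.1 ∈ BL` or `(π h).1 ∈ BR`, at most `3 |BL| + 3 |BR|`, and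
`|BL| ≤ |D| + #{u | inl u ∈ Missed}`, `|BR| ≤ |D| + #{v | inr v ∈ Missed}`. -/
theorem viol_le {n : ℕ} {D : Set (Hf n)} {π : Equiv.Perm (Hf n)}
    (hD : ∀ h h' : Hf n, h ≠ h' → h.1 = h'.1 → (π h).1 = (π h').1 → h ∈ D) {c : (gr D π).edgeSet → Fin 5}
    (hc : IsPacking (gr D π) sq c) :
    ∃ s t : Fin n → St, viol s t π ≤ 3 * ((Missed (gr D π) c).ncard + 2 * D.ncard) := by
  classical
  obtain ⟨s, t, hst⟩ := F7_state hD hc
  refine ⟨s, t, ?_⟩
  -- the finsets
  let M : Finset (Fin n ⊕ Fin n) := (Missed (gr D π) c).toFinite.toFinset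
  let E : Finset (Hf n) := D.toFinite.toFinset
  have hM : (Missed (gr D π) c).ncard = M.card := Set.ncard_eq_toFinset_card _ _
  have hE : D.ncard = E.card := Set.ncard_eq_toFinset_card _ _
  have memM : ∀ x, x ∈ M ↔ x ∈ Missed (gr D π) c := fun x => Set.Finite.mem_toFinset _
  have memE : ∀ x, x ∈ E ↔ x ∈ D := fun x => Set.Finite.mem_toFinset _
  let ML : Finset (Fin n) := univ.filter fun u => (Sum.inl u : Fin n ⊕ Fin n) ∈ M
  let MR : Finset (Fin n) := univ.filter fun v => (Sum.inr v : Fin n ⊕ Fin n) ∈ M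
  have hMM : ML.card + MR.card ≤ M.card := by
    rw [← card_disjSum]
    apply card_le_card
    intro x hx
    rw [mem_disjSum] at hx
    rcases hx with ⟨a, ha, rfl⟩ | ⟨b, hb, rfl⟩
    · exact (mem_filter.1 ha).2
    · exact (mem_filter.1 hb).2
  let BL : Finset (Fin n) := E.image Prod.fst ∪ ML
  let BR : Finset (Fin n) := (E.image fun h => (π h).1) ∪ MR
  have hBL : BL.card ≤ E.card + ML.card :=
    (card_union_le _ _).trans (Nat.add_le_add_right card_image_le _)
  have hBR : BR.card ≤ E.card + MR.card :=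
    (card_union_le _ _).trans (Nat.add_le_add_right card_image_le _)
  have h1 : (univ.filter fun h : Hf n => h.1 ∈ BL).card = 3 * BL.card := by
    have : (univ.filter fun h : Hf n => h.1 ∈ BL) = BL ×ˢ (univ : Finset (Fin 3)) := by
      ext h
      simp
    rw [this, card_product, card_univ, Fintype.card_fin, mul_comm]
  have h2 : (univ.filter fun h : Hf n => (π h).1 ∈ BR).card = 3 * BR.card := by
    have : (univ.filter fun h : Hf n => (π h).1 ∈ BR) = (BR ×ˢ (univ : Finset (Fin 3))).map π.symm.toEmbedding := by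
      ext h
      simp only [mem_filter, mem_univ, true_and, mem_map, mem_product, and_true, Equiv.coe_toEmbedding]
      constructor
      · intro hh
        exact ⟨π h, hh, π.symm_apply_apply h⟩
      · rintro ⟨a, ha, rfl⟩
        rw [Equiv.apply_symm_apply]
        exact ha
    rw [this, card_map, card_product, card_univ, Fintype.card_fin, mul_comm]
  have h3 : viol s t π ≤ (univ.filter fun h : Hf n => h.1 ∈ BL).card + (univ.filter fun h : Hf n => (π h).1 ∈ BR).card := by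
    refine le_trans (card_le_card ?_) (card_union_le _ _)
    intro h hh
    have hh' := (mem_filter.1 hh).2
    rw [mem_union]
    rcases hst h hh' with (⟨i, hi⟩ | hm) | (⟨j, hj⟩ | hm)
    · left
      refine mem_filter.2 ⟨mem_univ _, mem_union_left _ (mem_image.2 ⟨_, (memE _).2 hi, rfl⟩)⟩
    · left
      exact mem_filter.2 ⟨mem_univ _, mem_union_right _ (mem_filter.2 ⟨mem_univ _, (memM _).2 hm⟩)⟩
    · right
      refine mem_filter.2 ⟨mem_univ _, mem_union_left _ (mem_image.2 ⟨_, (memE _).2 hj, ?_⟩)⟩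
      rw [Equiv.apply_symm_apply]
    · right
      exact mem_filter.2 ⟨mem_univ _, mem_union_right _ (mem_filter.2 ⟨mem_univ _, (memM _).2 hm⟩)⟩
  rw [hM, hE]
  omega

end Pool.Agent.Lib.MP_d41719_co
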