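import Pool.Agent.Lib.MP_d41719_co.F1

/-!
Almost all vertices have degree three.
-/

namespace Pool.Agent.Lib.MP_d41719_co

/-- PROOF: by `good_left`, `good_right` such a vertex is `inl h.1` or `inr (π h).1` for some `h ∈ D`. -/
theorem deg_ne {n : ℕ} {D : Set (Hf n)} {π : Equiv.Perm (Hf n)}
    (hD : ∀ h h' : Hf n, h ≠ h' → h.1 = h'.1 → (π h).1 = (π h').1 → h ∈ D) :
    {x | ((gr D π).neighborSet x).ncard ≠ 3}.ncard ≤ 2 * D.ncard := by
  have h1 : {x | ((gr D π).neighborSet x).ncard ≠ 3} ⊆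
      (fun h : Hf n => (Sum.inl h.1 : Fin n ⊕ Fin n)) '' D ∪ (fun h : Hf n => (Sum.inr (π h).1 : Fin n ⊕ Fin n)) '' D := by
    rintro (u | v) hx
    · left
      by_contra hcon
      refine hx (good_left hD (u := u) fun i hi => hcon ⟨(u, i), hi, rfl⟩).2.1
    · right
      by_contra hcon
      refine hx (good_right hD (v := v) fun j hj => hcon ⟨π.symm (v, j), hj, ?_⟩).2.1
      show Sum.inr (π (π.symm (v, j))).1 = Sum.inr v
      rw [Equiv.apply_symm_apply]
  calc {x | ((gr D π).neighborSet x).ncard ≠ 3}.ncard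
      ≤ ((fun h : Hf n => (Sum.inl h.1 : Fin n ⊕ Fin n)) '' D ∪
          (fun h : Hf n => (Sum.inr (π h).1 : Fin n ⊕ Fin n)) '' D).ncard := Set.ncard_le_ncard h1 (Set.toFinite _)
    _ ≤ ((fun h : Hf n => (Sum.inl h.1 : Fin n ⊕ Fin n)) '' D).ncard +
          ((fun h : Hf n => (Sum.inr (π h).1 : Fin n ⊕ Fin n)) '' D).ncard := Set.ncard_union_le _ _
    _ ≤ D.ncard + D.ncard := add_le_add (Set.ncard_image_le (Set.toFinite _)) (Set.ncard_image_le (Set.toFinite _))
    _ = 2 * D.ncard := by ring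

end Pool.Agent.Lib.MP_d41719_co
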