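import Pool.Agent.Lib.MP_d41719_co.E2
import Pool.Agent.Lib.MP_d41719_co.F3
import Pool.Agent.Lib.MP_d41719_co.F7
import Pool.Agent.Lib.MP_d41719_co.F8

/-!
The theorem.
-/

namespace Pool.Agent.Lib.MP_d41719_co

/-- For every `g` there is a number `K` such that there are arbitrarily large bipartite graphs `G` of girth at least `g`, in
which all but at most `K` vertices have degree three and the others have a smaller degree, such that in every
`(1, 2, 2, 2, 2)`-packing edge-colouring of `G` at least `|V| / 10000` of the vertices of degree three are not the end of an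
edge of the 1-colour. -/
theorem near_perfect (g : ℕ) : ∃ K : ℕ, ∀ N : ℕ, ∃ (V : Type) (_ : Fintype V) (G : SimpleGraph V),
    N ≤ Fintype.card V ∧ G.IsBipartite ∧ (∀ v, (G.neighborSet v).ncard ≤ 3) ∧
    {v | (G.neighborSet v).ncard ≠ 3}.ncard ≤ K ∧ (g : ℕ∞) ≤ G.egirth ∧
    ∀ c : G.edgeSet → Fin 5, IsPacking G sq c →
      (Fintype.card V : ℝ) / 10000 ≤ (Missed G c).ncard := by
  obtain ⟨K, n₀, h⟩ := exists_perm (g + 1)
  refine ⟨4 * (g + 1) * K, fun N => ?_⟩
  obtain ⟨n, hn⟩ : ∃ n, n = n₀ + N + 60000 * (g + 1) * K + 1 := ⟨_, rfl⟩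
  obtain ⟨π, h1, h2⟩ := h n (by omega)
  have hD := fun a b hab ha hb => double_del (Nat.le_add_left 1 g) π a b hab ha hb
  have h4 := del_card (g + 1) π
  have h5 : 2 * (g + 1) * rea (g + 1) π ≤ 2 * (g + 1) * K := Nat.mul_le_mul_left _ h2
  refine ⟨Fin n ⊕ Fin n, inferInstance, gr (del (g + 1) π) π, ?_, gr_bip _ _, gr_le_three _ _, ?_, ?_, ?_⟩
  · rw [Fintype.card_sum, Fintype.card_fin]
    omega
  · have h6 := deg_ne hD
    have h7 : 4 * (g + 1) * K = 2 * (2 * (g + 1) * K) := by ring
    omega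
  · exact le_trans (by exact_mod_cast Nat.le_succ g) (gr_girth (g + 1) π)
  · intro c hc
    obtain ⟨s, t, hst⟩ := viol_le hD hc
    have h3 := h1 s t
    rw [Fintype.card_sum, Fintype.card_fin]
    have h6 : 2 * n ≤ 10000 * (Missed (gr (del (g + 1) π) π) c).ncard := by
      have h7 : 60000 * (g + 1) * K = 30000 * (2 * (g + 1) * K) := by ring
      omega
    have h8 : (2 * n : ℝ) ≤ 10000 * (Missed (gr (del (g + 1) π) π) c).ncard := by exact_mod_cast h6
    push_cast
    linarith

end Pool.Agent.Lib.MP_d41719_co
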