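import Mathlib

/-!
Packing edge-colourings: definitions.
-/

namespace Pool.Agent.Lib.MP_d41719_co

/-- `c` is an `S`-packing edge-colouring of `G`, `S = (s 0, ..., s (m - 1))`: any two distinct edges with the same colour
`i` are at distance at least `s i + 1` in the line graph of `G`. (In different components the distance is infinite.) -/
def IsPacking {V : Type} (G : SimpleGraph V) {m : ℕ} (s : Fin m → ℕ) (c : G.edgeSet → Fin m) : Prop :=
  ∀ e f : G.edgeSet, e ≠ f → c e = c f → ((s (c e) + 1 : ℕ) : ℕ∞) ≤ G.lineGraph.edist e f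

/-- The sequence `(1, 2, 2, 2, 2)`. The colour `0` is the 1-colour. -/
def sq : Fin 5 → ℕ := ![1, 2, 2, 2, 2]

/-- The vertices of degree three which are not the end of an edge of the colour `0`. -/
def Missed {V : Type} (G : SimpleGraph V) (c : G.edgeSet → Fin 5) : Set V :=
  {v | (G.neighborSet v).ncard = 3 ∧ ∀ e : G.edgeSet, v ∈ (e : Sym2 V) → c e ≠ 0}

end Pool.Agent.Lib.MP_d41719_co
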